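import Pool.Agent.N86.S8.Psl

/-!
# `6`-designs which are invariant under `AGL(d, 2)`
-/

set_option autoImplicit false

namespace Pool.Agent.N86.S8

open Finset Pool.Agent.N86.S6

variable {d k lam : ℕ} {𝓑 : Finset (Finset (Fin d → ZMod 2))}

lemma zmod2_eq_one {c : ZMod 2} (h : c ≠ 0) : c = 1 := by
  revert h; revert c; decide

lemma zmod2_add_self (c : ZMod 2) : c + c = 0 := by
  revert c; decide

lemma vec_add_self (v : Fin d → ZMod 2) : v + v = 0 := by
  funext i
  exact zmod2_add_self _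

/-- transvections -/
lemma exists_trans (W : Submodule (ZMod 2) (Fin d → ZMod 2)) {x y : Fin d → ZMod 2}
    (hx : x ∉ W) (hy : y ∉ W) : ∃ T : (Fin d → ZMod 2) ≃ₗ[ZMod 2] (Fin d → ZMod 2),
      (∀ w ∈ W, T w = w) ∧ T x = y := by
  have hxU : x ∉ W ⊔ Submodule.span (ZMod 2) {x + y} := by
    intro h
    rw [Submodule.mem_sup] at h
    obtain ⟨w, hw, z, hz, hwz⟩ := h
    rw [Submodule.mem_span_singleton] at hz
    obtain ⟨c, rfl⟩ := hz
    by_cases hc : c = 0
    · rw [hc, zero_smul, add_zero] at hwz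
      exact hx (hwz ▸ hw)
    · rw [zmod2_eq_one hc, one_smul] at hwz
      apply hy
      have : y = w := by
        have h1 : w + (x + y) + (x + w) = x + (x + w) := by rw [hwz]
        have h2 : w + (x + y) + (x + w) = y + (x + x) + (w + w) := by abel
        have h3 : x + (x + w) = w + (x + x) := by abel
        rw [h2, h3, vec_add_self, vec_add_self, add_zero, add_zero, add_zero] at h1
        exact h1
      rw [this]
      exact hw
  obtain ⟨f, hfx, hf⟩ := Submodule.exists_le_ker_of_notMem hxU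
  have hfW : ∀ w ∈ W, f w = 0 := fun w hw => hf (Submodule.mem_sup_left hw)
  have hfu : f (x + y) = 0 := hf (Submodule.mem_sup_right (Submodule.mem_span_singleton_self _))
  let T : (Fin d → ZMod 2) →ₗ[ZMod 2] (Fin d → ZMod 2) :=
    LinearMap.id + f.smulRight (x + y)
  have hT : ∀ v, T v = v + f v • (x + y) := fun v => rfl
  have hinv : Function.Involutive T := by
    intro v
    rw [hT, hT, map_add, map_smul, hfu, smul_zero, add_zero, add_assoc, vec_add_self, add_zero]
  refine ⟨LinearEquiv.ofInvolutive T hinv, ?_, ?_⟩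
  · intro w hw
    show T w = w
    rw [hT, hfW w hw, zero_smul, add_zero]
  · show T x = y
    rw [hT, zmod2_eq_one hfx, one_smul, ← add_assoc, vec_add_self, zero_add]

/-- the blocks through `S` cover the complement of a subspace -/
lemma cover0 (hD : IsDesign 6 k lam 𝓑)
    (hinv : ∀ T : (Fin d → ZMod 2) ≃ₗ[ZMod 2] (Fin d → ZMod 2), ∀ B ∈ 𝓑, B.image T ∈ 𝓑)
    (W : Submodule (ZMod 2) (Fin d → ZMod 2)) (hW : Nat.card W ≤ 32)
    (S : Finset (Fin d → ZMod 2)) (hS : S.card = 6) (hSW : ∀ s ∈ S, s ∈ W)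
    {B : Finset (Fin d → ZMod 2)} (hB : B ∈ 𝓑) (hSB : S ⊆ B) {z : Fin d → ZMod 2} (hz : z ∈ B)
    (hzW : z ∉ W) : 2 ^ d ≤ 32 + lam * (k - 6) := by
  classical
  have hcov : (univ : Finset (Fin d → ZMod 2)) ⊆ univ.filter (fun v => v ∈ W) ∪
      (𝓑.filter (fun B => S ⊆ B)).biUnion (fun B' => B' \ S) := by
    intro y _
    rw [Finset.mem_union]
    by_cases hy : y ∈ W
    · left
      exact Finset.mem_filter.2 ⟨Finset.mem_univ _, hy⟩
    · right
      obtain ⟨T, hT1, hT2⟩ := exists_trans W hzW hy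
      rw [Finset.mem_biUnion]
      refine ⟨B.image T, ?_, ?_⟩
      · rw [Finset.mem_filter]
        refine ⟨hinv T B hB, ?_⟩
        intro s hs
        rw [Finset.mem_image]
        exact ⟨s, hSB hs, hT1 s (hSW s hs)⟩
      · rw [Finset.mem_sdiff]
        refine ⟨?_, fun h => hy (hSW y h)⟩
        rw [Finset.mem_image]
        exact ⟨z, hz, hT2⟩
  have h1 := (Finset.card_le_card hcov).trans (Finset.card_union_le _ _)
  have h2 : (univ : Finset (Fin d → ZMod 2)).card = 2 ^ d := by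
    rw [Finset.card_univ, Fintype.card_fun, ZMod.card, Fintype.card_fin]
  have h3 : (univ.filter (fun v => v ∈ W)).card = Nat.card W := by
    rw [Nat.card_eq_fintype_card, Fintype.card_subtype]
  have h4 : ((𝓑.filter (fun B => S ⊆ B)).biUnion (fun B' => B' \ S)).card ≤ lam * (k - 6) := by
    refine Finset.card_biUnion_le.trans ?_
    rw [← hD.2 S hS, ← smul_eq_mul, ← Finset.sum_const]
    refine Finset.sum_le_sum fun B' hB' => ?_
    rw [Finset.mem_filter] at hB'
    rw [Finset.card_sdiff_of_subset hB'.2, hD.1 B' hB'.1, hS]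
  rw [h2, h3] at h1
  omega

/-- the general version -/
lemma cover (hD : IsDesign 6 k lam 𝓑)
    (hinv : ∀ g : (Fin d → ZMod 2) ≃ᵃ[ZMod 2] (Fin d → ZMod 2), ∀ B ∈ 𝓑, B.image g ∈ 𝓑)
    (S : Finset (Fin d → ZMod 2)) (hS : S.card = 6) {a : Fin d → ZMod 2} (ha : a ∈ S)
    {B : Finset (Fin d → ZMod 2)} (hB : B ∈ 𝓑) (hSB : S ⊆ B) {z : Fin d → ZMod 2} (hz : z ∈ B)
    (f : (Fin d → ZMod 2) →ₗ[ZMod 2] ZMod 2) (hf : ∀ s ∈ S, f s = f a) (hfz : f z ≠ f a) :
    2 ^ d ≤ 32 + lam * (k - 6) := by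
  classical
  have hlin : ∀ T : (Fin d → ZMod 2) ≃ₗ[ZMod 2] (Fin d → ZMod 2), ∀ B ∈ 𝓑, B.image T ∈ 𝓑 :=
    fun T B hB => hinv T.toAffineEquiv B hB
  let τ : (Fin d → ZMod 2) → (Fin d → ZMod 2) := fun v => a + v
  have hτ : ∀ B ∈ 𝓑, B.image τ ∈ 𝓑 := fun B hB =>
    hinv (AffineEquiv.constVAdd (ZMod 2) (Fin d → ZMod 2) a) B hB
  have hτi : Function.Injective τ := fun u v h => add_left_cancel h
  set S1 := S.image τ with hS1
  have hS1c : S1.card = 6 := by rw [hS1, Finset.card_image_of_injective _ hτi, hS]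
  have h0 : (0 : Fin d → ZMod 2) ∈ S1 := by
    rw [hS1, Finset.mem_image]
    exact ⟨a, ha, vec_add_self a⟩
  set F := S1.erase 0 with hF
  have hFc : F.card = 5 := by rw [hF, Finset.card_erase_of_mem h0, hS1c]
  set W := Submodule.span (ZMod 2) (F : Set (Fin d → ZMod 2)) with hW
  have hWc : Nat.card W ≤ 32 := by
    have h1 : Module.finrank (ZMod 2) W ≤ F.card := finrank_span_finset_le_card F
    rw [Module.natCard_eq_pow_finrank (K := ZMod 2) (V := W), Nat.card_zmod]
    calc 2 ^ Module.finrank (ZMod 2) W ≤ 2 ^ 5 := Nat.pow_le_pow_right (by norm_num) (by omega)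
      _ = 32 := by norm_num
  have hfW : ∀ w ∈ W, f w = 0 := by
    have h1 : W ≤ LinearMap.ker f := by
      rw [hW, Submodule.span_le]
      intro s hs
      rw [Finset.mem_coe, hF, Finset.mem_erase, hS1, Finset.mem_image] at hs
      obtain ⟨-, s', hs', rfl⟩ := hs
      show f (a + s') = 0
      rw [map_add, hf s' hs', zmod2_add_self]
    exact fun w hw => h1 hw
  refine cover0 hD hlin W hWc S1 hS1c ?_ (hτ B hB) (Finset.image_subset_image hSB)
    (z := a + z) (Finset.mem_image.2 ⟨z, hz, rfl⟩) ?_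
  · intro s hs
    by_cases h : s = 0
    · rw [h]; exact W.zero_mem
    · exact Submodule.subset_span (Finset.mem_coe.2 (Finset.mem_erase.2 ⟨h, hs⟩))
  · intro h
    have h1 := hfW _ h
    rw [map_add] at h1
    apply hfz
    have h2 : f a + (f a + f z) = f a := by rw [h1, add_zero]
    rw [← add_assoc, zmod2_add_self, zero_add] at h2
    exact h2

/-- `v ≤ 32 + λ (k - 6)` for `v ≥ 32` -/
theorem agl_cover (hD : IsDesign 6 k lam 𝓑)
    (hinv : ∀ g : (Fin d → ZMod 2) ≃ᵃ[ZMod 2] (Fin d → ZMod 2), ∀ B ∈ 𝓑, B.image g ∈ 𝓑)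
    (hk : 7 ≤ k) (hlam : 0 < lam) (hd : 5 ≤ d) : 2 ^ d ≤ 32 + lam * (k - 6) := by
  classical
  let c : Fin 5 → Fin d := fun i => ⟨i.1, by omega⟩
  have hc : Function.Injective c := fun i j h => Fin.ext (Fin.mk.inj_iff.1 h)
  let e : Fin 5 → (Fin d → ZMod 2) := fun i => Pi.single (c i) 1
  have hee : ∀ i j, e i (c j) = if i = j then 1 else 0 := by
    intro i j
    show (Pi.single (c i) (1 : ZMod 2) : Fin d → ZMod 2) (c j) = _
    rw [Pi.single_apply]
    by_cases h : i = j
    · rw [if_pos h, if_pos (by rw [h])]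
    · rw [if_neg h, if_neg (fun h' => h (hc h').symm)]
  have he : Function.Injective e := by
    intro i j h
    by_contra hij
    have h1 := congrFun h (c j)
    rw [hee, hee, if_neg hij, if_pos rfl] at h1
    exact zero_ne_one h1
  have he0 : ∀ i, e i ≠ 0 := by
    intro i h
    have h1 := congrFun h (c i)
    rw [hee, if_pos rfl] at h1
    exact one_ne_zero h1
  set E : Finset (Fin d → ZMod 2) := univ.image e with hE
  have hEc : E.card = 5 := by
    rw [hE, Finset.card_image_of_injective _ he, Finset.card_univ, Fintype.card_fin]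
  have h0E : (0 : Fin d → ZMod 2) ∉ E := by
    rw [hE, Finset.mem_image]
    rintro ⟨i, -, h⟩
    exact he0 i h
  have hSc : (insert 0 E).card = 6 := by rw [Finset.card_insert_of_notMem h0E, hEc]
  have h1 := hD.2 (insert 0 E) hSc
  have h2 : 0 < (𝓑.filter (fun B => insert 0 E ⊆ B)).card := by rw [h1]; exact hlam
  obtain ⟨B, hB⟩ := Finset.card_pos.1 h2
  rw [Finset.mem_filter] at hB
  obtain ⟨hB, hSB⟩ := hB
  have hBc := hD.1 B hB
  obtain ⟨x, hx, hxS⟩ : ∃ x ∈ B, x ∉ insert 0 E := by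
    by_contra hcon
    push Not at hcon
    have h3 := Finset.card_le_card (show B ⊆ insert 0 E from fun y hy => hcon y hy)
    omega
  rw [Finset.mem_insert, not_or] at hxS
  have hEi : ∀ i, e i ∈ E := fun i => Finset.mem_image_of_mem e (Finset.mem_univ i)
  have hEB : ∀ i, e i ∈ B := fun i => hSB (Finset.mem_insert_of_mem (hEi i))
  by_cases hA : ∃ i : Fin d, 5 ≤ i.1 ∧ x i ≠ 0
  · -- `x` is not in the span of the `e i`
    obtain ⟨i, hi, hxi⟩ := hA
    refine cover hD hinv (insert 0 E) hSc (Finset.mem_insert_self 0 E) hB hSB hx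
      (LinearMap.proj i) ?_ ?_
    · intro s hs
      rw [Finset.mem_insert, hE, Finset.mem_image] at hs
      rcases hs with rfl | ⟨j, -, rfl⟩
      · rfl
      · show (Pi.single (c j) (1 : ZMod 2) : Fin d → ZMod 2) i = 0
        rw [Pi.single_apply, if_neg]
        intro h
        have := congrArg Fin.val h
        simp only [c] at this
        omega
    · show x i ≠ 0
      exact hxi
  push Not at hA
  by_cases hB1 : ∃ j : Fin 5, x (c j) = 0
  · obtain ⟨j, hj⟩ := hB1
    set S' : Finset (Fin d → ZMod 2) := insert 0 (insert x (E.erase (e j))) with hS'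
    have hxE : x ∉ E.erase (e j) := fun h => hxS.2 (Finset.mem_of_mem_erase h)
    have h0' : (0 : Fin d → ZMod 2) ∉ insert x (E.erase (e j)) := by
      rw [Finset.mem_insert, not_or]
      exact ⟨fun h => hxS.1 h.symm, fun h => h0E (Finset.mem_of_mem_erase h)⟩
    have hS'c : S'.card = 6 := by
      rw [hS', Finset.card_insert_of_notMem h0', Finset.card_insert_of_notMem hxE,
        Finset.card_erase_of_mem (hEi j), hEc]
    refine cover hD hinv S' hS'c (Finset.mem_insert_self _ _) hB ?_ (hEB j)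
      (LinearMap.proj (c j)) ?_ ?_
    · intro s hs
      rw [hS', Finset.mem_insert, Finset.mem_insert] at hs
      rcases hs with rfl | rfl | hs
      · exact hSB (Finset.mem_insert_self _ _)
      · exact hx
      · exact hSB (Finset.mem_insert_of_mem (Finset.mem_of_mem_erase hs))
    · intro s hs
      rw [hS', Finset.mem_insert, Finset.mem_insert, Finset.mem_erase, hE, Finset.mem_image] at hs
      show s (c j) = 0
      rcases hs with rfl | rfl | ⟨hs1, i, -, rfl⟩
      · rfl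
      · exact hj
      · rw [hee, if_neg]
        intro h
        exact hs1 (by rw [h])
    · show e j (c j) ≠ 0
      rw [hee, if_pos rfl]
      exact one_ne_zero
  · push Not at hB1
    have hx1 : ∀ j : Fin 5, x (c j) = 1 := fun j => zmod2_eq_one (hB1 j)
    let f : (Fin d → ZMod 2) →ₗ[ZMod 2] ZMod 2 := ∑ j : Fin 5, LinearMap.proj (c j)
    have hf : ∀ v, f v = ∑ j : Fin 5, v (c j) := by
      intro v
      show (∑ j : Fin 5, (LinearMap.proj (c j) : (Fin d → ZMod 2) →ₗ[ZMod 2] ZMod 2)) v = _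
      rw [LinearMap.sum_apply]
      rfl
    have hfe : ∀ i, f (e i) = 1 := by
      intro i
      rw [hf, Finset.sum_congr rfl (fun j _ => hee i j), Finset.sum_ite_eq Finset.univ i,
        if_pos (Finset.mem_univ _)]
    have hfx : f x = 1 := by
      rw [hf, Finset.sum_congr rfl (fun j _ => hx1 j)]
      decide
    refine cover hD hinv (insert x E) ?_ (a := e 0) (Finset.mem_insert_of_mem (hEi 0)) hB ?_
      (z := 0) (hSB (Finset.mem_insert_self _ _)) f ?_ ?_
    · rw [Finset.card_insert_of_notMem hxS.2, hEc]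
    · intro s hs
      rw [Finset.mem_insert] at hs
      rcases hs with rfl | hs
      · exact hx
      · exact hSB (Finset.mem_insert_of_mem hs)
    · intro s hs
      rw [Finset.mem_insert, hE, Finset.mem_image] at hs
      rcases hs with rfl | ⟨i, -, rfl⟩
      · rw [hfx, hfe]
      · rw [hfe, hfe]
    · rw [hfe, map_zero]
      exact zero_ne_one

/-- the bound for `v = 2 ^ d` in terms of `λ` -/
theorem agl_bound {v : ℕ} (hv : 64 ≤ v) (hk : 7 ≤ k) (_hkv : k ≤ v)
    (h1 : v ≤ 32 + lam * (k - 6))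
    (h2 : (k : ℝ) * (k - 1) * (k - 2) * (k - 3) * (k - 4) * (k - 5) ≤
      6 * lam * (((v : ℝ) - 3) * (v - 4) * (v - 5))) : v ^ 3 ≤ 384 * lam ^ 7 := by
  have hv' : (64 : ℝ) ≤ v := by exact_mod_cast hv
  have h3 : (v : ℝ) ≤ 32 + lam * ((k : ℝ) - 6) := by
    have h4 : ((k - 6 : ℕ) : ℝ) = (k : ℝ) - 6 := by
      rw [Nat.cast_sub (by omega)]; norm_num
    rw [← h4]
    exact_mod_cast h1
  have hk7 : (7 : ℝ) ≤ k := by exact_mod_cast hk
  have hl : (0 : ℝ) ≤ lam := Nat.cast_nonneg _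
  set j : ℝ := (k : ℝ) - 5 with hj
  have hj0 : 0 ≤ j := by linarith
  have h4 : (v : ℝ) ≤ 2 * (lam * j) := by
    have : (lam : ℝ) * ((k : ℝ) - 6) ≤ lam * j := mul_le_mul_of_nonneg_left (by linarith) hl
    linarith
  have h5 : j ^ 6 ≤ (k : ℝ) * (k - 1) * (k - 2) * (k - 3) * (k - 4) * (k - 5) := by
    have h6 : (k : ℝ) * (k - 1) * (k - 2) * (k - 3) * (k - 4) * (k - 5) =
        (j + 5) * (j + 4) * (j + 3) * (j + 2) * (j + 1) * j := by rw [hj]; ring
    rw [h6]
    have h7 : (j + 5) * (j + 4) * (j + 3) * (j + 2) * (j + 1) * j - j ^ 6 =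
        15 * j ^ 5 + 85 * j ^ 4 + 225 * j ^ 3 + 274 * j ^ 2 + 120 * j := by ring
    have h8 : 0 ≤ 15 * j ^ 5 + 85 * j ^ 4 + 225 * j ^ 3 + 274 * j ^ 2 + 120 * j := by positivity
    linarith
  have h6 : ((v : ℝ) - 3) * (v - 4) * (v - 5) ≤ (v : ℝ) ^ 3 := by
    have a1 : (0 : ℝ) ≤ v - 5 := by linarith
    nlinarith [mul_nonneg a1 a1, mul_nonneg (mul_nonneg a1 a1) a1]
  have h7 : (v : ℝ) ^ 6 ≤ (384 * lam ^ 7) * (v : ℝ) ^ 3 := by
    calc (v : ℝ) ^ 6 ≤ (2 * (lam * j)) ^ 6 := pow_le_pow_left₀ (by linarith) h4 6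
      _ = (64 * lam ^ 6) * j ^ 6 := by ring
      _ ≤ (64 * lam ^ 6) * (6 * lam * (v : ℝ) ^ 3) := by
          refine mul_le_mul_of_nonneg_left ?_ (by positivity)
          refine h5.trans (h2.trans ?_)
          exact mul_le_mul_of_nonneg_left h6 (by positivity)
      _ = _ := by ring
  have h8 : (v : ℝ) ^ 3 ≤ 384 * lam ^ 7 := by
    have h9 : (v : ℝ) ^ 3 * (v : ℝ) ^ 3 ≤ (384 * lam ^ 7) * (v : ℝ) ^ 3 := by
      calc (v : ℝ) ^ 3 * (v : ℝ) ^ 3 = (v : ℝ) ^ 6 := by ring
        _ ≤ _ := h7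
    exact le_of_mul_le_mul_right h9 (by positivity)
  exact_mod_cast h8

end Pool.Agent.N86.S8
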