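import Pool.Agent.N86.S8.Small

/-!
# No block-transitive `6`-designs with the group `AGL(d, 2)` for `λ ≤ 151`
-/

set_option autoImplicit false

namespace Pool.Agent.N86.S8

open Finset Matrix Pool.Agent.N86.S6

section check

/-- the order of `AGL(d, 2)` -/
def ordA (d : ℕ) : ℕ :=
  2 ^ d * Nat.rec (motive := fun _ => ℕ) 1 (fun i acc => acc * (2 ^ d - 2 ^ i)) d

lemma ordA_eq (d : ℕ) : ordA d = 2 ^ d * ∏ i ∈ Finset.range d, (2 ^ d - 2 ^ i) := by
  have h : ∀ n, Nat.rec (motive := fun _ => ℕ) 1 (fun i acc => acc * (2 ^ d - 2 ^ i)) n =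
      ∏ i ∈ Finset.range n, (2 ^ d - 2 ^ i) := by
    intro n
    induction n with
    | zero => rfl
    | succ n ih => rw [Finset.prod_range_succ, ← ih]
  rw [ordA, h]

/-- the loop over `k`, downwards -/
def goA (N P T v k : ℕ) : Bool :=
  Nat.rec (motive := fun _ => Bool) true
    (fun i acc => bif Nat.ble v (32 + 151 * (i + 1 - 6)) then
        ((Nat.ble 1 ((N * p6 (i + 1)) % P) || Nat.ble (i + 1) 6 || Nat.ble v (i + 7) ||
          Nat.ble (906 * T + 1) (p6 (i + 1))) && acc)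
      else true) k

/-- the check for `v = 2 ^ d` -/
def chkA (d : ℕ) : Bool :=
  (fun s => Nat.ble (10 * 2 ^ d + 1) ((s + 1) * (s + 1)) &&
    goA (ordA d) (p6 (2 ^ d)) ((2 ^ d - 3) * (2 ^ d - 4) * (2 ^ d - 5)) (2 ^ d) (s + 5))
    (newton (10 * 2 ^ d) 30 (2 ^ (Nat.log2 (10 * 2 ^ d) / 2 + 1)))

/-- the check for `4 ≤ d < n` -/
def chkAall (n : ℕ) : Bool :=
  Nat.rec (motive := fun _ => Bool) true
    (fun d acc => (bif Nat.ble d 3 then true else chkA d) && acc) n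

set_option maxRecDepth 100000 in
lemma chkA20 : chkAall 20 = true := by decide +kernel

lemma chkAall_succ (n : ℕ) : chkAall (n + 1) =
    ((bif Nat.ble n 3 then true else chkA n) && chkAall n) := rfl

lemma chkAall_spec : ∀ n, chkAall n = true → ∀ d < n, 4 ≤ d → chkA d = true
  | 0 => by intro _ e he; omega
  | n + 1 => by
    intro h e he h2
    rw [chkAall_succ, Bool.and_eq_true] at h
    rcases Nat.lt_or_ge e n with hlt | hge
    · exact chkAall_spec n h.2 e hlt h2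
    · have hen : e = n := by omega
      subst hen
      have h3 := h.1
      have h4 : Nat.ble e 3 = false := by
        rw [Bool.eq_false_iff, ne_eq, Nat.ble_eq]; omega
      rw [h4, cond_false] at h3
      exact h3

lemma goA_succ (N P T v n : ℕ) : goA N P T v (n + 1) =
    bif Nat.ble v (32 + 151 * (n + 1 - 6)) then
        ((Nat.ble 1 ((N * p6 (n + 1)) % P) || Nat.ble (n + 1) 6 || Nat.ble v (n + 7) ||
          Nat.ble (906 * T + 1) (p6 (n + 1))) && goA N P T v n)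
      else true := rfl

lemma goA_spec {N P T v : ℕ} : ∀ n, goA N P T v n = true → ∀ k ≤ n, 7 ≤ k → k + 6 < v →
    v ≤ 32 + 151 * (k - 6) → p6 k ≤ 906 * T → (N * p6 k) % P ≠ 0
  | 0 => by intro _ k hk h7; omega
  | n + 1 => by
    intro h k hk h7 hkv hc hp
    rw [goA_succ] at h
    have e1 : Nat.ble v (32 + 151 * (n + 1 - 6)) = true := by
      rw [Nat.ble_eq]; omega
    rw [e1, cond_true, Bool.and_eq_true] at h
    rcases Nat.lt_or_ge k (n + 1) with hlt | hge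
    · exact goA_spec n h.2 k (by omega) h7 hkv hc hp
    · have hk' : k = n + 1 := by omega
      subst hk'
      have h1 := h.1
      rw [Bool.or_eq_true, Bool.or_eq_true, Bool.or_eq_true, Nat.ble_eq, Nat.ble_eq,
        Nat.ble_eq, Nat.ble_eq] at h1
      rcases h1 with ((h1 | h1) | h1) | h1
      · omega
      · omega
      · omega
      · omega

lemma chkA_spec {d : ℕ} (h : chkA d = true) {k : ℕ} (h7 : 7 ≤ k) (hkv : k + 6 < 2 ^ d)
    (hc : 2 ^ d ≤ 32 + 151 * (k - 6))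
    (hp : p6 k ≤ 906 * ((2 ^ d - 3) * (2 ^ d - 4) * (2 ^ d - 5))) :
    (ordA d * p6 k) % p6 (2 ^ d) ≠ 0 := by
  have h' : (Nat.ble (10 * 2 ^ d + 1)
      ((newton (10 * 2 ^ d) 30 (2 ^ (Nat.log2 (10 * 2 ^ d) / 2 + 1)) + 1) *
      (newton (10 * 2 ^ d) 30 (2 ^ (Nat.log2 (10 * 2 ^ d) / 2 + 1)) + 1)) &&
      goA (ordA d) (p6 (2 ^ d)) ((2 ^ d - 3) * (2 ^ d - 4) * (2 ^ d - 5)) (2 ^ d)
        (newton (10 * 2 ^ d) 30 (2 ^ (Nat.log2 (10 * 2 ^ d) / 2 + 1)) + 5)) = true := h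
  generalize newton (10 * 2 ^ d) 30 (2 ^ (Nat.log2 (10 * 2 ^ d) / 2 + 1)) = s at h'
  generalize ordA d = N at *
  generalize 2 ^ d = v at *
  rw [Bool.and_eq_true, Nat.ble_eq] at h'
  obtain ⟨h1, h2⟩ := h'
  refine goA_spec _ h2 k ?_ h7 hkv hc hp
  by_contra hcon
  have h3 : s + 1 ≤ k - 5 := by omega
  have h4 := pow_le_p6 k
  have h5 : (10 * v + 1) ^ 3 ≤ (k - 5) ^ 6 := by
    calc (10 * v + 1) ^ 3 ≤ ((s + 1) * (s + 1)) ^ 3 := Nat.pow_le_pow_left h1 3
      _ = (s + 1) ^ 6 := by ring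
      _ ≤ (k - 5) ^ 6 := Nat.pow_le_pow_left h3 6
  have h6 : (v - 3) * (v - 4) * (v - 5) ≤ v ^ 3 := by
    calc (v - 3) * (v - 4) * (v - 5) ≤ v * v * v :=
          Nat.mul_le_mul (Nat.mul_le_mul (by omega) (by omega)) (by omega)
      _ = v ^ 3 := by ring
  have h7 : 906 * v ^ 3 < (10 * v + 1) ^ 3 := by
    have : (10 * v + 1) ^ 3 = 1000 * v ^ 3 + (300 * v ^ 2 + 30 * v + 1) := by ring
    rw [this]
    omega
  have h8 : p6 k ≤ 906 * v ^ 3 := hp.trans (Nat.mul_le_mul_left _ h6)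
  omega

end check

/-- The group `AGL(d, 2)`. -/
def affHom (d : ℕ) : ((Fin d → ZMod 2) ≃ᵃ[ZMod 2] (Fin d → ZMod 2)) →*
    Equiv.Perm (Fin d → ZMod 2) where
  toFun f := f.toEquiv
  map_one' := rfl
  map_mul' _ _ := rfl

/-- an affine permutation is a linear one followed by a translation -/
def affEquiv (d : ℕ) : ((Fin d → ZMod 2) ≃ᵃ[ZMod 2] (Fin d → ZMod 2)) ≃
    ((Fin d → ZMod 2) ≃ₗ[ZMod 2] (Fin d → ZMod 2)) × (Fin d → ZMod 2) where
  toFun f := (f.linear, f 0)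
  invFun p := p.1.toAffineEquiv.trans (AffineEquiv.constVAdd (ZMod 2) (Fin d → ZMod 2) p.2)
  left_inv f := by
    ext x i
    have h := f.map_vadd 0 x
    rw [vadd_eq_add, add_zero, vadd_eq_add] at h
    rw [h, AffineEquiv.trans_apply, AffineEquiv.constVAdd_apply, vadd_eq_add, add_comm]
    rfl
  right_inv p := by
    obtain ⟨L, a⟩ := p
    refine Prod.ext ?_ ?_
    · rfl
    · show a + L 0 = a
      rw [map_zero, add_zero]

lemma card_aff (d : ℕ) : Nat.card ((Fin d → ZMod 2) ≃ᵃ[ZMod 2] (Fin d → ZMod 2)) = ordA d := by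
  rw [Nat.card_congr (affEquiv d), Nat.card_prod,
    ← Nat.card_congr (LinearMap.GeneralLinearGroup.generalLinearEquiv (ZMod 2)
      (Fin d → ZMod 2)).toEquiv,
    ← Nat.card_congr (Matrix.GeneralLinearGroup.toLin (n := Fin d) (R := ZMod 2)).toEquiv,
    Matrix.card_GL_field, ordA_eq, ZMod.card,
    Nat.card_eq_fintype_card (α := Fin d → ZMod 2), Fintype.card_fun, ZMod.card, Fintype.card_fin,
    Finset.prod_range, mul_comm]

/-- no `6`-design with `λ ≤ 151` has `AGL(d, 2)` as a block-transitive group -/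
theorem agl_none {k lam d : ℕ} {𝓑 : Finset (Finset (Fin d → ZMod 2))} (hD : IsDesign 6 k lam 𝓑)
    (hl0 : 0 < lam) (hl : lam ≤ 151)
    (hinv : ∀ g : (Fin d → ZMod 2) ≃ᵃ[ZMod 2] (Fin d → ZMod 2), ∀ B ∈ 𝓑, B.image g ∈ 𝓑)
    {B0 : Finset (Fin d → ZMod 2)} (hB0 : B0 ∈ 𝓑)
    (htr : ∀ B ∈ 𝓑, ∃ g : (Fin d → ZMod 2) ≃ᵃ[ZMod 2] (Fin d → ZMod 2), B = B0.image g)
    (hk : 6 < k) {C : Finset (Fin d → ZMod 2)} (hC : C.card = k) (hC' : C ∉ 𝓑) : False := by
  classical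
  have hcard : Fintype.card (Fin d → ZMod 2) = 2 ^ d := by
    rw [Fintype.card_fun, ZMod.card, Fintype.card_fin]
  have hgap := gap hD (by omega) hB0 hC hC'
  rw [hcard] at hgap
  have hd4 : 4 ≤ d := by
    by_contra hcon
    have h1 : 2 ^ d ≤ 2 ^ 3 := Nat.pow_le_pow_right (by norm_num) (by omega)
    omega
  have hv16 : 2 ^ 4 ≤ 2 ^ d := Nat.pow_le_pow_right (by norm_num) hd4
  have hF := fisher' hD (by omega) (by rw [hcard]; omega) hB0
  rw [hcard] at hF
  -- the cover bound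
  have hcov : 2 ^ d ≤ 32 + lam * (k - 6) := by
    rcases Nat.lt_or_ge d 5 with h5 | h5
    · have h1 : 2 ^ d ≤ 2 ^ 4 := Nat.pow_le_pow_right (by norm_num) (by omega)
      omega
    · exact agl_cover hD hinv (by omega) hl0 h5
  have hcov' : 2 ^ d ≤ 32 + 151 * (k - 6) :=
    hcov.trans (Nat.add_le_add_left (Nat.mul_le_mul_right _ hl) _)
  -- d < 20
  have hd20 : d < 20 := by
    by_contra hcon
    have h64 : 64 ≤ 2 ^ d := by
      calc 64 = 2 ^ 6 := by norm_num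
        _ ≤ 2 ^ d := Nat.pow_le_pow_right (by norm_num) (by omega)
    have h5 := fisher_real (v := 2 ^ d) (by omega) (by omega) hF
    have h6 := agl_bound h64 (by omega) (by omega) hcov h5
    have h7 : 384 * lam ^ 7 ≤ 384 * 151 ^ 7 :=
      Nat.mul_le_mul_left _ (Nat.pow_le_pow_left hl 7)
    have h8 : (2 ^ 20) ^ 3 ≤ (2 ^ d) ^ 3 :=
      Nat.pow_le_pow_left (Nat.pow_le_pow_right (by norm_num) (by omega)) 3
    have h9 : 384 * 151 ^ 7 < (2 ^ 20) ^ 3 := by norm_num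
    exact absurd (h8.trans (h6.trans h7)) (not_le.2 h9)
  -- the divisibility
  have h1 := dvd_order (affHom d).range (𝓑 := 𝓑) (B0 := B0) hB0
    (by
      rintro _ ⟨f, rfl⟩ B hB
      exact hinv f B hB)
    (by
      intro B hB
      obtain ⟨g, hg⟩ := htr B hB
      exact ⟨affHom d g, ⟨g, rfl⟩, hg⟩)
  have h2 := Subgroup.card_range_dvd (affHom d)
  rw [card_aff] at h2
  obtain ⟨c, hc⟩ := h1.trans h2
  have h4 := count_through hD ∅ (by simp)
  have h5 : 𝓑.filter (fun B => ∅ ⊆ B) = 𝓑 := by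
    rw [Finset.filter_eq_self]
    intro B _
    exact Finset.empty_subset B
  rw [h5, Finset.card_empty, Nat.sub_zero, Nat.sub_zero, Nat.sub_zero, hcard] at h4
  have h6 : 𝓑.card * p6 k = lam * p6 (2 ^ d) := by
    rw [p6_choose, p6_choose]
    calc 𝓑.card * (720 * k.choose 6) = 720 * (𝓑.card * k.choose 6) := by ring
      _ = 720 * (lam * (2 ^ d).choose 6) := by rw [h4]
      _ = _ := by ring
  have h7 : ordA d * p6 k = p6 (2 ^ d) * (c * lam) := by
    calc ordA d * p6 k = c * (𝓑.card * p6 k) := by rw [hc]; ring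
      _ = _ := by rw [h6]; ring
  have hp6 : p6 k ≤ 906 * ((2 ^ d - 3) * (2 ^ d - 4) * (2 ^ d - 5)) := by
    have e0 : 2 ^ d - 1 + 1 - 3 = 2 ^ d - 3 := by omega
    have e1 : 2 ^ d - 1 - 2 = 2 ^ d - 3 := by omega
    have e2 : 2 ^ d - 1 - 3 = 2 ^ d - 4 := by omega
    have e3 : 2 ^ d - 1 - 4 = 2 ^ d - 5 := by omega
    have h8 := p6_le (q := 2 ^ d - 1) (k := k) (lam := lam) (by omega) (by omega)
      (by rw [e0]; exact hF)
    rw [e1, e2, e3] at h8
    exact h8.trans (Nat.mul_le_mul_right _ (by omega))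
  exact chkA_spec (chkAall_spec 20 chkA20 d hd20 hd4) (by omega) (by omega) hcov' hp6
    (by rw [h7]; exact Nat.mul_mod_right _ _)

end Pool.Agent.N86.S8
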