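import Mathlib

/-!
# A finite check
-/

set_option autoImplicit false

namespace Pool.Agent.N86.S8

/-- `k (k - 1) ... (k - 5)` -/
def p6 (k : ℕ) : ℕ := k * (k - 1) * (k - 2) * (k - 3) * (k - 4) * (k - 5)

/-- the exceptional pairs -/
def exc (q k : ℕ) : Bool :=
  (Nat.beq q 59 && (Nat.beq k 22 || Nat.beq k 23 || Nat.beq k 24)) ||
  (Nat.beq q 67 && (Nat.beq k 16 || Nat.beq k 17 || Nat.beq k 18)) ||
  (Nat.beq q 157 && (Nat.beq k 35 || Nat.beq k 36))

/-- the loop over `k`, downwards; `A = (q-1)(q-3)(q-5)`, `D = 2 e (q+1)`, `T = (q-2)(q-3)(q-4)` -/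
def go (e q A D T : ℕ) (k : ℕ) : Bool :=
  Nat.rec (motive := fun _ => Bool) true
    (fun i acc => bif Nat.ble A (D * ((i + 1) * (i - 1) * (i - 3))) then
        (bif Nat.beq ((e * p6 (i + 1)) % T) 0 then
          (Nat.ble (906 * T + 1) (p6 (i + 1)) || Nat.ble (i + 1) 6 || Nat.ble q (i + 6) ||
            exc q (i + 1)) && acc else acc)
      else true) k

/-- Newton's iteration for the square root -/
def newton (n : ℕ) (fuel : ℕ) (s : ℕ) : ℕ :=
  Nat.rec (motive := fun _ => ℕ → ℕ) (fun s => s)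
    (fun _ f s => bif Nat.ble s ((s + n / s) / 2) then s else f ((s + n / s) / 2)) fuel s

/-- the check for `q` -/
def chkq (e q : ℕ) : Bool :=
  (fun s => Nat.ble (10 * q + 1) ((s + 1) * (s + 1)) &&
    go e q ((q - 1) * (q - 3) * (q - 5)) (2 * e * (q + 1)) ((q - 2) * (q - 3) * (q - 4)) (s + 5))
    (newton (10 * q) 30 (2 ^ (Nat.log2 (10 * q) / 2 + 1)))

/-- the check for `q = p ^ e`, `p < n` -/
def chkp (e n : ℕ) : Bool :=
  Nat.rec (motive := fun _ => Bool) true
    (fun p acc => (bif (Nat.ble (p % 6) 0 || (Nat.beq (p % 2) 0 && Nat.ble 3 p) ||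
        (Nat.beq (p % 3) 0 && Nat.ble 4 p)) then true else
        (bif Nat.ble (9664 * (e * e) + 1) (p ^ e) then true else
          (bif Nat.ble (p ^ e) 12 then true else chkq e (p ^ e)))) && acc) n

set_option maxRecDepth 100000

lemma chk1 : chkp 1 9665 = true := by decide +kernel

end Pool.Agent.N86.S8
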