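import Pool.Agent.N86.S8.Check

/-!
# The meaning of the finite check
-/

set_option autoImplicit false

namespace Pool.Agent.N86.S8

set_option maxRecDepth 100000

/-- the check for `q = p ^ e`, `2 ≤ e < n` -/
def chkall (n : ℕ) : Bool :=
  Nat.rec (motive := fun _ => Bool) true
    (fun e acc => (bif Nat.ble e 1 then true else chkp e 197) && acc) n

lemma chk2 : chkall 23 = true := by decide +kernel

lemma chkall_succ (n : ℕ) : chkall (n + 1) =
    ((bif Nat.ble n 1 then true else chkp n 197) && chkall n) := rfl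

lemma chkall_spec : ∀ n, chkall n = true → ∀ e < n, 2 ≤ e → chkp e 197 = true
  | 0 => by intro _ e he; omega
  | n + 1 => by
    intro h e he h2
    rw [chkall_succ, Bool.and_eq_true] at h
    rcases Nat.lt_or_ge e n with hlt | hge
    · exact chkall_spec n h.2 e hlt h2
    · have hen : e = n := by omega
      subst hen
      have h3 := h.1
      have h4 : Nat.ble e 1 = false := by
        rw [Bool.eq_false_iff, ne_eq, Nat.ble_eq]; omega
      rw [h4, cond_false] at h3
      exact h3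

lemma go_succ (e q A D T n : ℕ) : go e q A D T (n + 1) =
    bif Nat.ble A (D * ((n + 1) * (n - 1) * (n - 3))) then
        (bif Nat.beq ((e * p6 (n + 1)) % T) 0 then
          (Nat.ble (906 * T + 1) (p6 (n + 1)) || Nat.ble (n + 1) 6 || Nat.ble q (n + 6) ||
            exc q (n + 1)) && go e q A D T n else go e q A D T n)
      else true := rfl

lemma go_spec {e q A D T : ℕ} : ∀ n, go e q A D T n = true → ∀ k ≤ n, 7 ≤ k → k + 6 ≤ q →
    A ≤ D * (k * (k - 2) * (k - 4)) → (e * p6 k) % T = 0 → p6 k ≤ 906 * T → exc q k = true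
  | 0 => by intro _ k hk h7; omega
  | n + 1 => by
    intro h k hk h7 hkq hA hT hp
    rw [go_succ] at h
    have hmono : k * (k - 2) * (k - 4) ≤ (n + 1) * (n - 1) * (n - 3) :=
      Nat.mul_le_mul (Nat.mul_le_mul hk (by omega)) (by omega)
    have hA' : A ≤ D * ((n + 1) * (n - 1) * (n - 3)) := hA.trans (Nat.mul_le_mul_left D hmono)
    have e1 : Nat.ble A (D * ((n + 1) * (n - 1) * (n - 3))) = true := by
      rw [Nat.ble_eq]; exact hA'
    rw [e1, cond_true] at h
    rcases Nat.lt_or_ge k (n + 1) with hlt | hge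
    · have hacc : go e q A D T n = true := by
        by_cases hb : Nat.beq ((e * p6 (n + 1)) % T) 0 = true
        · rw [hb, cond_true, Bool.and_eq_true] at h; exact h.2
        · rw [Bool.not_eq_true] at hb; rw [hb, cond_false] at h; exact h
      exact go_spec n hacc k (by omega) h7 hkq hA hT hp
    · have hk' : k = n + 1 := by omega
      subst hk'
      have hb : Nat.beq ((e * p6 (n + 1)) % T) 0 = true := by
        rw [Nat.beq_eq]; exact hT
      rw [hb, cond_true, Bool.and_eq_true] at h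
      have h1 := h.1
      rw [Bool.or_eq_true, Bool.or_eq_true, Bool.or_eq_true, Nat.ble_eq, Nat.ble_eq,
        Nat.ble_eq] at h1
      rcases h1 with ((h1 | h1) | h1) | h1
      · omega
      · omega
      · omega
      · exact h1

lemma pow_le_p6 (k : ℕ) : (k - 5) ^ 6 ≤ p6 k := by
  calc (k - 5) ^ 6 = (k - 5) * (k - 5) * (k - 5) * (k - 5) * (k - 5) * (k - 5) := by ring
    _ ≤ k * (k - 1) * (k - 2) * (k - 3) * (k - 4) * (k - 5) := by
      refine Nat.mul_le_mul (Nat.mul_le_mul (Nat.mul_le_mul (Nat.mul_le_mul (Nat.mul_le_mul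
        ?_ ?_) ?_) ?_) ?_) ?_ <;> omega

lemma chkq_spec {e q : ℕ} (h : chkq e q = true) {k : ℕ} (h7 : 7 ≤ k) (hkq : k + 6 ≤ q)
    (hA : (q - 1) * (q - 3) * (q - 5) ≤ 2 * e * (q + 1) * (k * (k - 2) * (k - 4)))
    (hT : (e * p6 k) % ((q - 2) * (q - 3) * (q - 4)) = 0)
    (hp : p6 k ≤ 906 * ((q - 2) * (q - 3) * (q - 4))) : exc q k = true := by
  have h' : (Nat.ble (10 * q + 1) ((newton (10 * q) 30 (2 ^ (Nat.log2 (10 * q) / 2 + 1)) + 1) *
      (newton (10 * q) 30 (2 ^ (Nat.log2 (10 * q) / 2 + 1)) + 1)) &&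
      go e q ((q - 1) * (q - 3) * (q - 5)) (2 * e * (q + 1)) ((q - 2) * (q - 3) * (q - 4))
        (newton (10 * q) 30 (2 ^ (Nat.log2 (10 * q) / 2 + 1)) + 5)) = true := h
  generalize newton (10 * q) 30 (2 ^ (Nat.log2 (10 * q) / 2 + 1)) = s at h'
  rw [Bool.and_eq_true, Nat.ble_eq] at h'
  obtain ⟨h1, h2⟩ := h'
  refine go_spec _ h2 k ?_ h7 hkq hA hT hp
  by_contra hcon
  have h3 : s + 1 ≤ k - 5 := by omega
  have h4 := pow_le_p6 k
  have h5 : (10 * q + 1) ^ 3 ≤ (k - 5) ^ 6 := by
    calc (10 * q + 1) ^ 3 ≤ ((s + 1) * (s + 1)) ^ 3 := Nat.pow_le_pow_left h1 3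
      _ = (s + 1) ^ 6 := by ring
      _ ≤ (k - 5) ^ 6 := Nat.pow_le_pow_left h3 6
  have h6 : (q - 2) * (q - 3) * (q - 4) ≤ q ^ 3 := by
    calc (q - 2) * (q - 3) * (q - 4) ≤ q * q * q :=
          Nat.mul_le_mul (Nat.mul_le_mul (by omega) (by omega)) (by omega)
      _ = q ^ 3 := by ring
  have h7 : 906 * q ^ 3 < (10 * q + 1) ^ 3 := by
    have : (10 * q + 1) ^ 3 = 1000 * q ^ 3 + (300 * q ^ 2 + 30 * q + 1) := by ring
    rw [this]
    omega
  have h8 : p6 k ≤ 906 * q ^ 3 := hp.trans (Nat.mul_le_mul_left _ h6)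
  omega

lemma chkp_succ (e n : ℕ) : chkp e (n + 1) =
    ((bif (Nat.ble (n % 6) 0 || (Nat.beq (n % 2) 0 && Nat.ble 3 n) ||
        (Nat.beq (n % 3) 0 && Nat.ble 4 n)) then true else
        (bif Nat.ble (9664 * (e * e) + 1) (n ^ e) then true else
          (bif Nat.ble (n ^ e) 12 then true else chkq e (n ^ e)))) && chkp e n) := rfl

lemma chkp_spec {e : ℕ} : ∀ n, chkp e n = true → ∀ p < n, p.Prime → p ^ e ≤ 9664 * (e * e) →
    12 < p ^ e → chkq e (p ^ e) = true
  | 0 => by intro _ p hp; omega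
  | n + 1 => by
    intro h p hp hpp h1 h2
    rw [chkp_succ, Bool.and_eq_true] at h
    rcases Nat.lt_or_ge p n with hlt | hge
    · exact chkp_spec n h.2 p hlt hpp h1 h2
    · have hpn : p = n := by omega
      subst hpn
      have h3 := h.1
      have hc : (Nat.ble (p % 6) 0 || (Nat.beq (p % 2) 0 && Nat.ble 3 p) ||
          (Nat.beq (p % 3) 0 && Nat.ble 4 p)) = false := by
        rw [Bool.eq_false_iff]
        intro hc
        rw [Bool.or_eq_true, Bool.or_eq_true, Bool.and_eq_true, Bool.and_eq_true, Nat.ble_eq,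
          Nat.ble_eq, Nat.ble_eq, Nat.beq_eq, Nat.beq_eq] at hc
        have h20 := hpp.two_le
        rcases hc with (hc | hc) | hc
        · have a := (Nat.prime_dvd_prime_iff_eq Nat.prime_two hpp).1 (by omega)
          omega
        · have a := (Nat.prime_dvd_prime_iff_eq Nat.prime_two hpp).1 (by omega)
          omega
        · have a := (Nat.prime_dvd_prime_iff_eq Nat.prime_three hpp).1 (by omega)
          omega
      have h4 : Nat.ble (9664 * (e * e) + 1) (p ^ e) = false := by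
        rw [Bool.eq_false_iff, ne_eq, Nat.ble_eq]; omega
      have h5 : Nat.ble (p ^ e) 12 = false := by
        rw [Bool.eq_false_iff, ne_eq, Nat.ble_eq]; omega
      rw [hc, cond_false, h4, cond_false, h5, cond_false] at h3
      exact h3

lemma pow_197 (n : ℕ) : 9664 * ((n + 2) * (n + 2)) < 197 ^ (n + 2) := by
  induction n with
  | zero => norm_num
  | succ n ih =>
    have h1 : (n + 1 + 2) * (n + 1 + 2) ≤ 197 * ((n + 2) * (n + 2)) := by nlinarith
    calc 9664 * ((n + 1 + 2) * (n + 1 + 2)) ≤ 9664 * (197 * ((n + 2) * (n + 2))) :=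
          Nat.mul_le_mul_left _ h1
      _ = 197 * (9664 * ((n + 2) * (n + 2))) := by ring
      _ < 197 * 197 ^ (n + 2) := by linarith
      _ = 197 ^ (n + 1 + 2) := by ring

lemma pow_two_23 (n : ℕ) : 9664 * ((n + 23) * (n + 23)) < 2 ^ (n + 23) := by
  induction n with
  | zero => norm_num
  | succ n ih =>
    have h1 : (n + 1 + 23) * (n + 1 + 23) ≤ 2 * ((n + 23) * (n + 23)) := by nlinarith
    calc 9664 * ((n + 1 + 23) * (n + 1 + 23)) ≤ 9664 * (2 * ((n + 23) * (n + 23))) :=
          Nat.mul_le_mul_left _ h1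
      _ = 2 * (9664 * ((n + 23) * (n + 23))) := by ring
      _ < 2 * 2 ^ (n + 23) := by linarith
      _ = 2 ^ (n + 1 + 23) := by ring

/-- all prime powers are checked -/
lemma chk_pe {p e : ℕ} (hp : p.Prime) (h : p ^ e ≤ 9664 * (e * e)) (h12 : 12 < p ^ e) :
    chkq e (p ^ e) = true := by
  rcases Nat.lt_or_ge e 23 with he | he
  · rcases Nat.lt_or_ge e 2 with he2 | he2
    · rcases Nat.eq_zero_or_pos e with rfl | he0
      · norm_num at h12
      · have he1 : e = 1 := by omega
        subst he1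
        refine @chkp_spec 1 9665 chk1 p ?_ hp h h12
        rw [pow_one] at h
        omega
    · refine chkp_spec 197 (chkall_spec 23 chk2 e he he2) p ?_ hp h h12
      by_contra hcon
      have h1 := Nat.pow_le_pow_left (show 197 ≤ p by omega) e
      obtain ⟨n, rfl⟩ : ∃ n, e = n + 2 := ⟨e - 2, by omega⟩
      have h2 := pow_197 n
      omega
  · exfalso
    have h1 := Nat.pow_le_pow_left hp.two_le e
    obtain ⟨n, rfl⟩ : ∃ n, e = n + 23 := ⟨e - 23, by omega⟩
    have h2 := pow_two_23 n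
    omega

lemma exc_spec {q k : ℕ} (h : exc q k = true) :
    (q = 59 ∧ (k = 22 ∨ k = 23 ∨ k = 24)) ∨ (q = 67 ∧ (k = 16 ∨ k = 17 ∨ k = 18)) ∨
      (q = 157 ∧ (k = 35 ∨ k = 36)) := by
  unfold exc at h
  simp only [Bool.or_eq_true, Bool.and_eq_true, Nat.beq_eq] at h
  omega

end Pool.Agent.N86.S8
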