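import Pool.Agent.N86.S6.Design

/-!
# `t`-designs: blocks through `S` and disjoint from `A`; nontrivial designs have `k + t < v`;
a `6`-design has at least `C(v, 3)` blocks
-/

set_option autoImplicit false

namespace Pool.Agent.N86.S8

open Finset Pool.Agent.N86.S6

variable {X : Type*} [Fintype X] [DecidableEq X] {t k lam : ℕ} {𝓑 : Finset (Finset X)}

/-- the number of blocks which contain `S` and are disjoint from `A` -/
def cnt (𝓑 : Finset (Finset X)) (S A : Finset X) : ℕ :=
  (𝓑.filter (fun B => S ⊆ B ∧ Disjoint A B)).card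

omit [Fintype X] in
lemma cnt_step (S A : Finset X) (y : X) (_hy : y ∉ A) :
    cnt 𝓑 S A = cnt 𝓑 S (insert y A) + cnt 𝓑 (insert y S) A := by
  unfold cnt
  rw [← Finset.card_union_of_disjoint]
  · congr 1
    ext B
    simp only [Finset.mem_filter, Finset.mem_union, Finset.disjoint_insert_left,
      Finset.insert_subset_iff]
    tauto
  · rw [Finset.disjoint_left]
    intro B h1 h2
    simp only [Finset.mem_filter, Finset.disjoint_insert_left, Finset.insert_subset_iff] at h1 h2
    exact h1.2.2.1 h2.2.1.1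

/-- the number of blocks through a set depends on the size of the set only -/
lemma through_eq (hD : IsDesign t k lam 𝓑) (htk : t ≤ k) (S S' : Finset X) (h : S.card = S'.card)
    (hS : S.card ≤ t) :
    (𝓑.filter (fun B => S ⊆ B)).card = (𝓑.filter (fun B => S' ⊆ B)).card := by
  have h1 := count_through hD S hS
  have h2 := count_through hD S' (by omega)
  rw [← h, ← h1] at h2
  have h3 : 0 < (k - S.card).choose (t - S.card) := Nat.choose_pos (by omega)
  exact (Nat.eq_of_mul_eq_mul_right h3 h2).symm

/-- the number of blocks through `S` and disjoint from `A` depends on the sizes only -/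
theorem cnt_eq (hD : IsDesign t k lam 𝓑) (htk : t ≤ k) (n : ℕ) :
    ∀ S A S' A' : Finset X, A.card = n → A'.card = n → S.card = S'.card → Disjoint S A →
      Disjoint S' A' → S.card + n ≤ t → cnt 𝓑 S A = cnt 𝓑 S' A' := by
  induction n with
  | zero =>
    intro S A S' A' hA hA' hS _ _ ht
    rw [Finset.card_eq_zero] at hA hA'
    subst hA hA'
    unfold cnt
    simp only [Finset.disjoint_empty_left, and_true]
    exact through_eq hD htk S S' hS (by omega)
  | succ n ih =>
    intro S A S' A' hA hA' hS hd hd' ht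
    obtain ⟨y, A0, hy, rfl, hA0⟩ := Finset.card_eq_succ.1 hA
    obtain ⟨y', A0', hy', rfl, hA0'⟩ := Finset.card_eq_succ.1 hA'
    rw [Finset.disjoint_insert_right] at hd hd'
    have h1 := cnt_step (𝓑 := 𝓑) S A0 y hy
    have h2 := cnt_step (𝓑 := 𝓑) S' A0' y' hy'
    have h3 := ih S A0 S' A0' hA0 hA0' hS hd.2 hd'.2 (by omega)
    have h4 := ih (insert y S) A0 (insert y' S') A0' hA0 hA0'
      (by rw [Finset.card_insert_of_notMem hd.1, Finset.card_insert_of_notMem hd'.1, hS])
      (by rw [Finset.disjoint_insert_left]; exact ⟨hy, hd.2⟩)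
      (by rw [Finset.disjoint_insert_left]; exact ⟨hy', hd'.2⟩)
      (by rw [Finset.card_insert_of_notMem hd.1]; omega)
    omega

/-- A nontrivial `t`-design has `k + t < v`. -/
theorem gap (hD : IsDesign t k lam 𝓑) (htk : t ≤ k) {B C : Finset X} (hB : B ∈ 𝓑)
    (hC : C.card = k) (hC' : C ∉ 𝓑) : k + t < Fintype.card X := by
  by_contra hcon
  have hBc := hD.1 B hB
  have h1 : (Bᶜ).card = Fintype.card X - k := by rw [Finset.card_compl, hBc]
  have h2 : (Cᶜ).card = Fintype.card X - k := by rw [Finset.card_compl, hC]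
  have h3 := cnt_eq hD htk (Fintype.card X - k) ∅ Bᶜ ∅ Cᶜ h1 h2 rfl
    (Finset.disjoint_empty_left _) (Finset.disjoint_empty_left _)
    (by rw [Finset.card_empty]; omega)
  have h4 : 0 < cnt 𝓑 ∅ Bᶜ := by
    unfold cnt
    rw [Finset.card_pos]
    refine ⟨B, ?_⟩
    rw [Finset.mem_filter]
    exact ⟨hB, Finset.empty_subset _, disjoint_compl_left⟩
  rw [h3] at h4
  unfold cnt at h4
  rw [Finset.card_pos] at h4
  obtain ⟨D, hD'⟩ := h4
  rw [Finset.mem_filter] at hD'
  have h5 : D ⊆ C := by
    intro x hx
    by_contra hxC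
    exact (Finset.disjoint_left.1 hD'.2.2) (Finset.mem_compl.2 hxC) hx
  have h6 : D = C := Finset.eq_of_subset_of_card_le h5 (by rw [hC, hD.1 D hD'.1])
  exact hC' (h6 ▸ hD'.1)

/-- **The generalised Fisher inequality** for `6`-designs (Petrenjuk, Ray-Chaudhuri and Wilson). -/
theorem fisher (hD : IsDesign 6 k lam 𝓑) (hk : 6 ≤ k) (hkv : k + 3 ≤ Fintype.card X)
    {B0 : Finset X} (hB0 : B0 ∈ 𝓑) : (Fintype.card X).choose 3 ≤ 𝓑.card := by
  classical
  let T3 : Finset (Finset X) := (univ : Finset X).powersetCard 3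
  have hT3 : ∀ S : T3, S.1.card = 3 := fun S => (Finset.mem_powersetCard.1 S.2).2
  -- positivity
  have hpos : ∀ S A : Finset X, S.card = 3 → A.card ≤ 3 → Disjoint S A → 0 < cnt 𝓑 S A := by
    intro S A hS hA hd
    obtain ⟨S0, hS0, hS0c⟩ := Finset.exists_subset_card_eq (s := B0) (n := 3)
      (by rw [hD.1 B0 hB0]; omega)
    obtain ⟨A0, hA0, hA0c⟩ := Finset.exists_subset_card_eq (s := B0ᶜ) (n := A.card)
      (by rw [Finset.card_compl, hD.1 B0 hB0]; omega)
    have hd0 : Disjoint S0 A0 :=
      Disjoint.mono hS0 hA0 (disjoint_compl_right)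
    rw [cnt_eq hD hk A.card S A S0 A0 rfl hA0c (by rw [hS, hS0c]) hd hd0 (by omega)]
    unfold cnt
    rw [Finset.card_pos]
    refine ⟨B0, ?_⟩
    rw [Finset.mem_filter]
    exact ⟨hB0, hS0, Disjoint.mono_left hA0 disjoint_compl_left⟩
  let Φ : (T3 → ℚ) →ₗ[ℚ] (𝓑 → ℚ) :=
    { toFun := fun x B => ∑ S : T3, if S.1 ⊆ B.1 then x S else 0
      map_add' := by
        intro x y
        funext B
        rw [Pi.add_apply, ← Finset.sum_add_distrib]
        refine Finset.sum_congr rfl fun S _ => ?_
        split_ifs <;> simp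
      map_smul' := by
        intro c x
        funext B
        rw [RingHom.id_apply, Pi.smul_apply, smul_eq_mul, Finset.mul_sum]
        refine Finset.sum_congr rfl fun S _ => ?_
        split_ifs <;> simp }
  have hinj : Function.Injective Φ := by
    rw [injective_iff_map_eq_zero]
    intro x hx
    have hx' : ∀ B : 𝓑, (∑ S : T3, if S.1 ⊆ B.1 then x S else 0) = 0 := fun B => congrFun hx B
    -- sums over the sets disjoint from `A`
    have key : ∀ A : Finset X, A.card ≤ 3 →
        ∑ S : T3, (if Disjoint S.1 A then x S else 0) = 0 := by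
      intro A hA
      have h1 : ∑ B : 𝓑, (if Disjoint A B.1 then
          (∑ S : T3, if S.1 ⊆ B.1 then x S else 0) else 0) = 0 := by
        refine Finset.sum_eq_zero fun B _ => ?_
        rw [hx' B]
        simp
      have h2 : ∑ B : 𝓑, (if Disjoint A B.1 then
          (∑ S : T3, if S.1 ⊆ B.1 then x S else 0) else 0) =
          ∑ S : T3, x S * (cnt 𝓑 S.1 A : ℚ) := by
        have h3 : ∀ B : 𝓑, (if Disjoint A B.1 then
            (∑ S : T3, if S.1 ⊆ B.1 then x S else 0) else 0) =
            ∑ S : T3, if (S.1 ⊆ B.1 ∧ Disjoint A B.1) then x S else 0 := by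
          intro B
          by_cases h : Disjoint A B.1
          · simp [h]
          · simp [h]
        rw [Finset.sum_congr rfl (fun B _ => h3 B), Finset.sum_comm]
        refine Finset.sum_congr rfl fun S _ => ?_
        unfold cnt
        rw [Finset.card_filter, Nat.cast_sum, Finset.mul_sum]
        rw [← Finset.sum_coe_sort 𝓑 (fun B => x S * ((if S.1 ⊆ B ∧ Disjoint A B then 1 else 0 : ℕ) : ℚ))]
        refine Finset.sum_congr rfl fun B _ => ?_
        split_ifs <;> simp
      rw [h2] at h1
      by_cases hex : ∃ S0 : T3, Disjoint S0.1 A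
      · obtain ⟨S0, hS0⟩ := hex
        have h4 : ∀ S : T3, x S * (cnt 𝓑 S.1 A : ℚ) =
            (if Disjoint S.1 A then x S else 0) * (cnt 𝓑 S0.1 A : ℚ) := by
          intro S
          by_cases h : Disjoint S.1 A
          · rw [if_pos h, cnt_eq hD hk A.card S.1 A S0.1 A rfl rfl (by rw [hT3, hT3]) h hS0
              (by rw [hT3]; omega)]
          · rw [if_neg h, zero_mul]
            have h5 : cnt 𝓑 S.1 A = 0 := by
              unfold cnt
              rw [Finset.card_eq_zero, Finset.filter_eq_empty_iff]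
              intro B _ hB'
              exact h (Disjoint.mono_left hB'.1 hB'.2.symm)
            rw [h5, Nat.cast_zero, mul_zero]
        rw [Finset.sum_congr rfl (fun S _ => h4 S), ← Finset.sum_mul] at h1
        rcases mul_eq_zero.1 h1 with h5 | h5
        · exact h5
        · exfalso
          have h6 := hpos S0.1 A (hT3 S0) hA hS0
          have h7 : (cnt 𝓑 S0.1 A : ℚ) ≠ 0 := by
            exact_mod_cast h6.ne'
          exact h7 h5
      · refine Finset.sum_eq_zero fun S _ => ?_
        rw [if_neg (fun h => hex ⟨S, h⟩)]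
    -- inclusion and exclusion
    funext T
    have h1 : ∑ A ∈ T.1.powerset, (-1 : ℚ) ^ A.card *
        ∑ S : T3, (if Disjoint S.1 A then x S else 0) = 0 := by
      refine Finset.sum_eq_zero fun A hA => ?_
      rw [key A ((Finset.card_le_card (Finset.mem_powerset.1 hA)).trans (hT3 T).le), mul_zero]
    have h2 : ∑ A ∈ T.1.powerset, (-1 : ℚ) ^ A.card *
        ∑ S : T3, (if Disjoint S.1 A then x S else 0) = ∑ S : T3, (if S = T then x S else 0) := by
      rw [Finset.sum_congr rfl (fun A _ => Finset.mul_sum _ _ _), Finset.sum_comm]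
      refine Finset.sum_congr rfl fun S _ => ?_
      have h3 : ∑ A ∈ T.1.powerset, (-1 : ℚ) ^ A.card * (if Disjoint S.1 A then x S else 0) =
          (∑ A ∈ (T.1 \ S.1).powerset, (-1 : ℚ) ^ A.card) * x S := by
        rw [Finset.sum_mul]
        have h4 : (T.1 \ S.1).powerset = T.1.powerset.filter (fun A => Disjoint S.1 A) := by
          ext A
          rw [Finset.mem_powerset, Finset.mem_filter, Finset.mem_powerset,
            Finset.subset_sdiff, disjoint_comm]
        rw [h4, Finset.sum_filter]
        refine Finset.sum_congr rfl fun A _ => ?_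
        split_ifs <;> simp
      rw [h3]
      have h5 : (∑ A ∈ (T.1 \ S.1).powerset, (-1 : ℚ) ^ A.card) =
          if T.1 \ S.1 = ∅ then 1 else 0 := by
        have h6 := Finset.sum_powerset_neg_one_pow_card (x := T.1 \ S.1)
        have h7 : ((∑ A ∈ (T.1 \ S.1).powerset, (-1 : ℤ) ^ A.card : ℤ) : ℚ) =
            ((if T.1 \ S.1 = ∅ then 1 else 0 : ℤ) : ℚ) := by rw [h6]
        push_cast at h7
        exact h7
      rw [h5]
      by_cases h : S = T
      · rw [if_pos h, h, if_pos (Finset.sdiff_self _), one_mul]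
      · rw [if_neg h, if_neg, zero_mul]
        intro h8
        rw [Finset.sdiff_eq_empty_iff_subset] at h8
        exact h (Subtype.ext (Finset.eq_of_subset_of_card_le h8 (by rw [hT3, hT3])).symm)
    rw [h1, Finset.sum_ite_eq' Finset.univ T] at h2
    simpa using h2.symm
  have h1 := LinearMap.finrank_le_finrank_of_injective hinj
  rw [Module.finrank_fintype_fun_eq_card, Module.finrank_fintype_fun_eq_card, Fintype.card_coe,
    Fintype.card_coe, Finset.card_powersetCard, Finset.card_univ] at h1
  exact h1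

/-- Fisher's inequality and the number of blocks -/
theorem fisher' (hD : IsDesign 6 k lam 𝓑) (hk : 6 ≤ k) (hkv : k + 3 ≤ Fintype.card X)
    {B0 : Finset X} (hB0 : B0 ∈ 𝓑) :
    k.choose 3 * (k - 3).choose 3 ≤ lam * (Fintype.card X - 3).choose 3 := by
  have h1 := fisher hD hk hkv hB0
  have h2 := count_through hD ∅ (by simp)
  have h3 : 𝓑.filter (fun B => ∅ ⊆ B) = 𝓑 := by
    rw [Finset.filter_eq_self]
    exact fun B _ => Finset.empty_subset B
  rw [Finset.card_empty, Nat.sub_zero, Nat.sub_zero, Nat.sub_zero, h3] at h2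
  set v := Fintype.card X
  have h4 := Nat.choose_mul (n := v) (k := 6) (s := 3) (by omega)
  have h5 := Nat.choose_mul (n := k) (k := 6) (s := 3) (by omega)
  have h6 : Nat.choose 6 3 = 20 := by decide
  rw [h6] at h4 h5
  norm_num at h4 h5
  have h7 : v.choose 3 * (k.choose 3 * (k - 3).choose 3) ≤
      v.choose 3 * (lam * (v - 3).choose 3) := by
    calc v.choose 3 * (k.choose 3 * (k - 3).choose 3) = v.choose 3 * (k.choose 6 * 20) := by
          rw [h5]
      _ ≤ 𝓑.card * (k.choose 6 * 20) := Nat.mul_le_mul_right _ h1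
      _ = (𝓑.card * k.choose 6) * 20 := by ring
      _ = lam * (v.choose 6 * 20) := by rw [h2]; ring
      _ = v.choose 3 * (lam * (v - 3).choose 3) := by rw [h4]; ring
  exact Nat.le_of_mul_le_mul_left h7 (Nat.choose_pos (by omega))

end Pool.Agent.N86.S8
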