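import Pool.Agent.N86.S8.Agl

/-!
# `6`-designs with odd `λ` on the projective line: the two inequalities
-/

set_option autoImplicit false

namespace Pool.Agent.N86.S8

open Finset Matrix Pool.Agent.N86.S6

lemma e_pow_four (e : ℕ) : 64 * e ^ 4 ≤ 1296 * 2 ^ e := by
  by_cases h : e < 6
  · interval_cases e <;> norm_num
  · obtain ⟨n, rfl⟩ : ∃ n, e = n + 6 := ⟨e - 6, by omega⟩
    clear h
    induction n with
    | zero => norm_num
    | succ n ih =>
      have h0 : 2 * (64 * (n + 6) ^ 4) = 64 * (n + 1 + 6) ^ 4 +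
          64 * (n ^ 4 + 20 * n ^ 3 + 138 * n ^ 2 + 356 * n + 191) := by ring
      have h1 : 64 * (n + 1 + 6) ^ 4 ≤ 2 * (64 * (n + 6) ^ 4) := by
        rw [h0]; exact Nat.le_add_right _ _
      calc 64 * (n + 1 + 6) ^ 4 ≤ 2 * (64 * (n + 6) ^ 4) := h1
        _ ≤ 2 * (1296 * 2 ^ (n + 6)) := Nat.mul_le_mul_left 2 ih
        _ = 1296 * 2 ^ (n + 1 + 6) := by ring

/-- the bound without `e` -/
lemma bound_no_e {q p e lam m : ℕ} (hp : p.Prime) (hq : q = p ^ e)
    (h : q ≤ 64 * (lam * (e * m) ^ 2)) : q ≤ (288 * (lam * m ^ 2)) ^ 2 := by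
  have h1 : 2 ^ e ≤ q := by
    rw [hq]
    exact Nat.pow_le_pow_left hp.two_le e
  have h2 := e_pow_four e
  rcases Nat.eq_zero_or_pos q with hq0 | hq0
  · rw [hq0]; exact Nat.zero_le _
  have h3 : 64 * (q * q) ≤ 64 * ((288 * (lam * m ^ 2)) ^ 2 * q) := by
    calc 64 * (q * q) ≤ 64 * ((64 * (lam * (e * m) ^ 2)) * (64 * (lam * (e * m) ^ 2))) :=
          Nat.mul_le_mul_left _ (Nat.mul_le_mul h h)
      _ = 4096 * (lam * m ^ 2) ^ 2 * (64 * e ^ 4) := by ring
      _ ≤ 4096 * (lam * m ^ 2) ^ 2 * (1296 * 2 ^ e) := Nat.mul_le_mul_left _ h2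
      _ ≤ 4096 * (lam * m ^ 2) ^ 2 * (1296 * q) :=
          Nat.mul_le_mul_left _ (Nat.mul_le_mul_left _ h1)
      _ = 64 * ((288 * (lam * m ^ 2)) ^ 2 * q) := by ring
  have h4 : q * q ≤ (288 * (lam * m ^ 2)) ^ 2 * q := Nat.le_of_mul_le_mul_left h3 (by norm_num)
  exact Nat.le_of_mul_le_mul_right h4 hq0

variable {K : Type*} [Field K] [DecidableEq K] [Fintype K]

/-- the two bounds for `6`-designs on the projective line -/
theorem psl_main {k lam : ℕ} {𝓑 R : Finset (Finset (OnePoint K))} (hD : IsDesign 6 k lam 𝓑)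
    (hlam : Odd lam) (G : Subgroup (Equiv.Perm (OnePoint K)))
    (hSL : ∀ A : SpecialLinearGroup (Fin 2) K, slPerm A ∈ G) (hsemi : ∀ g ∈ G, IsSemilinear g)
    (hinv : ∀ g ∈ G, ∀ B ∈ 𝓑, B.image g ∈ 𝓑)
    (hR : ∀ B ∈ 𝓑, ∃ A ∈ R, ∃ g ∈ G, B = A.image g) {p e : ℕ} (hp : p.Prime)
    (hq : Fintype.card K = p ^ e) (hk : 6 < k) {C : Finset (OnePoint K)} (hC : C.card = k)
    (hC' : C ∉ 𝓑) (hkv : k < Fintype.card K + 1) :
    k + 7 ≤ Fintype.card K + 1 ∧
    ((Fintype.card K : ℝ) - 1) * (Fintype.card K - 3) * (Fintype.card K - 5) ≤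
      2 * ((e * R.card : ℕ) : ℝ) * (Fintype.card K + 1) * (k * (k - 2) * (k - 4)) ∧
    k.choose 3 * (k - 3).choose 3 ≤ lam * (Fintype.card K + 1 - 3).choose 3 ∧
    Fintype.card K ≤ 64 * (lam * (e * R.card) ^ 2) := by
  -- there is a block
  have hex : ∃ B0, B0 ∈ 𝓑 := by
    obtain ⟨S, hS⟩ := Finset.exists_subset_card_eq (s := (univ : Finset (OnePoint K))) (n := 6)
      (by rw [Finset.card_univ, card_line]; omega)
    have h1 := hD.2 S hS.2
    have h2 : 0 < (𝓑.filter (fun B => S ⊆ B)).card := by rw [h1]; exact hlam.pos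
    obtain ⟨B, hB⟩ := Finset.card_pos.1 h2
    exact ⟨B, (Finset.mem_filter.1 hB).1⟩
  obtain ⟨B0, hB0⟩ := hex
  have hgap := gap hD (by omega) hB0 hC hC'
  rw [card_line] at hgap
  have h1 := main_ineq hD hlam G hSL hsemi hinv hR hp hq
  have h2 := bound_general (by omega) (by omega) h1
  have h3 := fisher' hD (by omega) (by rw [card_line]; omega) hB0
  rw [card_line] at h3
  have h2' : ((Fintype.card K : ℝ) - 1) * (Fintype.card K - 3) * (Fintype.card K - 5) ≤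
      2 * ((e * R.card : ℕ) : ℝ) * (Fintype.card K + 1) * (k * (k - 2) * (k - 4)) := by
    rw [Nat.cast_mul, ← mul_assoc 2 (e : ℝ)]
    exact h2
  refine ⟨by omega, h2', h3, ?_⟩
  refine psl_bound (by omega) (by omega) h2' ?_
  have h4 := fisher_real (v := Fintype.card K + 1) (by omega) (by omega) h3
  have h5 : (((Fintype.card K + 1 : ℕ) : ℝ) - 3) * (((Fintype.card K + 1 : ℕ) : ℝ) - 4) *
      (((Fintype.card K + 1 : ℕ) : ℝ) - 5) =
      ((Fintype.card K : ℝ) - 2) * (Fintype.card K - 3) * (Fintype.card K - 4) := by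
    push_cast; ring
  rw [h5] at h4
  exact h4

end Pool.Agent.N86.S8
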