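import Pool.Agent.N86.S8.Main

/-!
# The order of `PΓL(2, q)`; the number of blocks of a block-transitive design divides `|G|`
-/

set_option autoImplicit false

namespace Pool.Agent.N86.S8

open Finset Matrix Pool.Agent.N86.S6

/-- the number of blocks divides the order of a block-transitive group -/
theorem dvd_order {X : Type*} [Fintype X] [DecidableEq X] (G : Subgroup (Equiv.Perm X))
    {𝓑 : Finset (Finset X)} {B0 : Finset X} (hB0 : B0 ∈ 𝓑)
    (hinv : ∀ g ∈ G, ∀ B ∈ 𝓑, B.image g ∈ 𝓑) (htr : ∀ B ∈ 𝓑, ∃ g ∈ G, B = B0.image g) :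
    𝓑.card ∣ Nat.card G := by
  classical
  letI act : MulAction G (Finset X) :=
    { smul := fun g B => B.image g.1
      one_smul := fun B => Finset.image_id
      mul_smul := fun g h B => by
        show B.image (g * h).1 = (B.image h.1).image g.1
        rw [Finset.image_image]
        rfl }
  have h1 : (MulAction.orbit G B0) = (𝓑 : Set (Finset X)) := by
    ext B
    rw [MulAction.mem_orbit_iff, Finset.mem_coe]
    constructor
    · rintro ⟨g, rfl⟩
      exact hinv g.1 g.2 B0 hB0
    · intro hB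
      obtain ⟨g, hg, rfl⟩ := htr B hB
      exact ⟨⟨g, hg⟩, rfl⟩
  have h2 := MulAction.index_stabilizer G (x := B0)
  rw [h1, Set.ncard_coe_finset] at h2
  rw [← h2]
  exact Subgroup.index_dvd_card _

variable {K : Type*} [Field K] [DecidableEq K]

/-- The group `PΓL(2, K)`. -/
def gammaSub (K : Type*) [Field K] [DecidableEq K] : Subgroup (Equiv.Perm (OnePoint K)) where
  carrier := {g | IsSemilinear g}
  mul_mem' := by
    rintro g h ⟨A, σ, hg⟩ ⟨B, τ, hh⟩
    refine ⟨A * B.map (σ : K →+* K), τ.trans σ, fun x => ?_⟩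
    rw [Equiv.Perm.mul_apply, hh, hg, mul_smul]
    congr 1
    have h1 := OnePoint.map_smul (σ : K →+* K) B (x.map τ)
    refine h1.trans ?_
    congr 1
    cases x <;> rfl
  one_mem' := by
    refine ⟨1, RingEquiv.refl K, fun x => ?_⟩
    rw [one_smul]
    cases x <;> rfl
  inv_mem' := by
    rintro g ⟨A, σ, hg⟩
    refine ⟨(A⁻¹).map (σ.symm : K →+* K), σ.symm, fun x => ?_⟩
    rw [Equiv.Perm.inv_eq_iff_eq, hg]
    have h1 := OnePoint.map_smul (σ.symm : K →+* K) A⁻¹ x
    have h2 : ∀ y : OnePoint K, (y.map (σ.symm : K →+* K)).map σ = y := by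
      intro y
      cases y with
      | infty => rfl
      | coe y => simp
    have h3 : ((A⁻¹).map (σ.symm : K →+* K) • x.map σ.symm) = (A⁻¹ • x).map (σ.symm : K →+* K) :=
      h1.symm
    rw [h3, h2, smul_inv_smul]

lemma mem_gammaSub {g : Equiv.Perm (OnePoint K)} : g ∈ gammaSub K ↔ IsSemilinear g := Iff.rfl

/-- `GL(2, K)` is transitive on the triples of distinct points. -/
lemma exists_gl (φ : Fin 3 ↪ OnePoint K) : ∃ A : GL (Fin 2) K, ∀ i, A • base K i = φ i := by
  have hne : ∀ i j, i ≠ j → φ i ≠ φ j := fun i j h h' => h (φ.injective h')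
  -- the first point
  obtain ⟨A1, hA1⟩ : ∃ A1 : GL (Fin 2) K, A1 • (OnePoint.infty : OnePoint K) = φ 0 := by
    cases h : φ 0 with
    | infty => exact ⟨1, one_smul _ _⟩
    | coe x =>
      refine ⟨Matrix.GeneralLinearGroup.mkOfDetNeZero !![x, -1; 1, 0] (by
        simp [Matrix.det_fin_two]), ?_⟩
      rw [OnePoint.smul_infty_eq_ite]
      simp [Matrix.GeneralLinearGroup.mkOfDetNeZero]
  have h1 : A1⁻¹ • φ 1 ≠ OnePoint.infty := by
    intro h
    rw [inv_smul_eq_iff, hA1] at h
    exact hne 1 0 (by decide) h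
  have h2 : A1⁻¹ • φ 2 ≠ OnePoint.infty := by
    intro h
    rw [inv_smul_eq_iff, hA1] at h
    exact hne 2 0 (by decide) h
  obtain ⟨a, ha⟩ := OnePoint.ne_infty_iff_exists.1 h1
  obtain ⟨b, hb⟩ := OnePoint.ne_infty_iff_exists.1 h2
  have hab : b - a ≠ 0 := by
    intro h
    rw [sub_eq_zero] at h
    rw [h, ha] at hb
    exact hne 1 2 (by decide) (MulAction.injective _ hb)
  let A2 : GL (Fin 2) K := Matrix.GeneralLinearGroup.mkOfDetNeZero !![b - a, a; 0, 1] (by
    simp [Matrix.det_fin_two, hab])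
  refine ⟨A1 * A2, fun i => ?_⟩
  have e0 : A2 • (OnePoint.infty : OnePoint K) = OnePoint.infty := by
    rw [OnePoint.smul_infty_eq_ite]
    simp [A2, Matrix.GeneralLinearGroup.mkOfDetNeZero]
  have e1 : A2 • ((0 : K) : OnePoint K) = (a : OnePoint K) := by
    rw [OnePoint.smul_some_eq_ite]
    simp [A2, Matrix.GeneralLinearGroup.mkOfDetNeZero]
  have e2 : A2 • ((1 : K) : OnePoint K) = (b : OnePoint K) := by
    rw [OnePoint.smul_some_eq_ite]
    simp [A2, Matrix.GeneralLinearGroup.mkOfDetNeZero]
  rw [mul_smul]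
  fin_cases i
  · show A1 • A2 • (OnePoint.infty : OnePoint K) = φ 0
    rw [e0, hA1]
  · show A1 • A2 • ((0 : K) : OnePoint K) = φ 1
    rw [e1, ha, smul_inv_smul]
  · show A1 • A2 • ((1 : K) : OnePoint K) = φ 2
    rw [e2, hb, smul_inv_smul]

/-- the permutation of the line given by an automorphism of the field -/
def autPerm (σ : K ≃+* K) : Equiv.Perm (OnePoint K) where
  toFun x := x.map σ
  invFun x := x.map σ.symm
  left_inv x := by
    cases x with
    | infty => rfl
    | coe x => simp
  right_inv x := by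
    cases x with
    | infty => rfl
    | coe x => simp

variable [Fintype K]

/-- the order of `Aut K` -/
theorem card_aut {p e : ℕ} (hp : p.Prime) (hq : Fintype.card K = p ^ e) :
    Fintype.card (K ≃+* K) = e := by
  refine le_antisymm (card_aut_le hp hq) ?_
  classical
  obtain ⟨p', hp'⟩ := CharP.exists K
  obtain ⟨n, h1, h2⟩ := FiniteField.card K p'
  have hpp : p' = p ∧ (n : ℕ) = e := by
    have h3 : p' ∣ p ^ e := by
      rw [← hq, h2]
      exact dvd_pow_self p' n.ne_zero
    have h4 : p' = p := (Nat.prime_dvd_prime_iff_eq h1 hp).1 (h1.dvd_of_dvd_pow h3)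
    refine ⟨h4, ?_⟩
    subst h4
    exact Nat.pow_right_injective h1.two_le (h2.symm.trans hq)
  obtain ⟨rfl, hn⟩ := hpp
  have : Fact p'.Prime := ⟨h1⟩
  let _ : Algebra (ZMod p') K := ZMod.algebra K p'
  have hfin : Module.finrank (ZMod p') K = e := by
    have h3 := Module.card_eq_pow_finrank (K := ZMod p') (V := K)
    rw [ZMod.card, h2] at h3
    rw [← hn]
    exact (Nat.pow_right_injective h1.two_le h3).symm
  have h4 := IsGalois.card_aut_eq_finrank (ZMod p') K
  rw [← hfin, ← h4, ← Nat.card_eq_fintype_card]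
  exact Nat.card_le_card_of_injective (fun σ : K ≃ₐ[ZMod p'] K => (σ : K ≃+* K)) (by
    intro σ τ h
    ext x
    exact congrArg (fun f : K ≃+* K => f x) h)

/-- **The order of `PΓL(2, q)`.** -/
theorem card_gammaSub {p e : ℕ} (hp : p.Prime) (hq : Fintype.card K = p ^ e) :
    Nat.card (gammaSub K) =
      e * ((Fintype.card K + 1) * Fintype.card K * (Fintype.card K - 1)) := by
  classical
  have h0 : Fintype.card (Fin 3 ↪ OnePoint K) =
      (Fintype.card K + 1) * Fintype.card K * (Fintype.card K - 1) := by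
    rw [Fintype.card_embedding_eq, card_line, Fintype.card_fin]
    simp only [Nat.descFactorial_succ, Nat.descFactorial_zero, Nat.sub_zero, mul_one,
      Nat.add_sub_cancel]
    have h2 : Fintype.card K + 1 - 2 = Fintype.card K - 1 := by omega
    rw [h2]
    ring
  refine le_antisymm ?_ ?_
  · let Gf : Finset (Equiv.Perm (OnePoint K)) := univ.filter (fun g => g ∈ gammaSub K)
    have h1 : Nat.card (gammaSub K) = Gf.card := by
      rw [Nat.card_eq_fintype_card, Fintype.card_subtype]
    rw [h1, ← card_aut hp hq]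
    exact card_semilinear_le Gf (fun g hg => (Finset.mem_filter.1 hg).2)
  · choose A hA using (exists_gl : ∀ φ : Fin 3 ↪ OnePoint K, _)
    rw [← h0, ← card_aut hp hq, ← Fintype.card_prod, ← Nat.card_eq_fintype_card]
    refine Nat.card_le_card_of_injective
      (fun x : (K ≃+* K) × (Fin 3 ↪ OnePoint K) =>
        (⟨MulAction.toPerm (A x.2) * autPerm x.1, ⟨A x.2, x.1, fun _ => rfl⟩⟩ : gammaSub K)) ?_
    rintro ⟨σ, φ⟩ ⟨τ, ψ⟩ h
    have h1 : ∀ x : OnePoint K, A φ • x.map σ = A ψ • x.map τ := fun x =>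
      congrArg (fun g : gammaSub K => g.1 x) h
    have h2 : ∀ (σ : K ≃+* K) (i : Fin 3), (base K i).map σ = base K i := by
      intro σ i
      fin_cases i
      · rfl
      · show (((0 : K) : OnePoint K)).map σ = ((0 : K) : OnePoint K)
        rw [OnePoint.map_some, map_zero]
      · show (((1 : K) : OnePoint K)).map σ = ((1 : K) : OnePoint K)
        rw [OnePoint.map_some, map_one]
    have h3 : φ = ψ := by
      ext i
      have h4 := h1 (base K i)
      rw [h2, h2, hA, hA] at h4
      rw [h4]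
    subst h3
    have h4 : σ = τ := by
      ext x
      have h5 := MulAction.injective _ (h1 (x : OnePoint K))
      rw [OnePoint.map_some, OnePoint.map_some] at h5
      exact OnePoint.coe_injective h5
    rw [h4]

end Pool.Agent.N86.S8
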