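import Pool.Agent.N86.S8.Fisher
import Pool.Agent.N86.S6.Main

/-!
# `6`-designs on the projective line, `λ` odd: the bounds
-/

set_option autoImplicit false

namespace Pool.Agent.N86.S8

lemma choose3 (n : ℕ) : 6 * (n + 2).choose 3 = (n + 2) * (n + 1) * n := by
  have h1 := Nat.add_one_mul_choose_eq (n + 1) 2
  have h2 := Nat.add_one_mul_choose_eq n 1
  simp only [Nat.choose_one_right] at h1 h2
  have e1 : n + 1 + 1 = n + 2 := rfl
  have e2 : 2 + 1 = 3 := rfl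
  have e3 : 1 + 1 = 2 := rfl
  rw [e1, e2] at h1
  rw [e3] at h2
  calc 6 * (n + 2).choose 3 = 2 * ((n + 2).choose 3 * 3) := by ring
    _ = 2 * ((n + 2) * (n + 1).choose 2) := by rw [h1]
    _ = (n + 2) * ((n + 1).choose 2 * 2) := by ring
    _ = (n + 2) * ((n + 1) * n) := by rw [h2]
    _ = _ := by ring

/-- The bound of Fisher's inequality in terms of products. -/
lemma fisher_real {v k lam : ℕ} (hk : 7 ≤ k) (hkv : k ≤ v)
    (h : k.choose 3 * (k - 3).choose 3 ≤ lam * (v - 3).choose 3) :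
    (k : ℝ) * (k - 1) * (k - 2) * (k - 3) * (k - 4) * (k - 5) ≤
      6 * lam * (((v : ℝ) - 3) * (v - 4) * (v - 5)) := by
  obtain ⟨i, rfl⟩ : ∃ i, k = i + 5 := ⟨k - 5, by omega⟩
  obtain ⟨j, rfl⟩ : ∃ j, v = j + 5 := ⟨v - 5, by omega⟩
  have e1 : i + 5 - 3 = i + 2 := by omega
  have e2 : j + 5 - 3 = j + 2 := by omega
  rw [e1, e2] at h
  have h1 := choose3 (i + 3)
  have h2 := choose3 i
  have h3 := choose3 j
  have e3 : i + 3 + 2 = i + 5 := by omega
  rw [e3] at h1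
  have h1' : (6 : ℝ) * ((i + 5).choose 3 : ℕ) = (i + 5) * (i + 4) * (i + 3) := by
    have : (6 : ℝ) * ((i + 5).choose 3 : ℕ) = ((i + 5 : ℕ) * (i + 3 + 1 : ℕ) * (i + 3 : ℕ) : ℕ) := by
      exact_mod_cast h1
    rw [this]; push_cast; ring
  have h2' : (6 : ℝ) * ((i + 2).choose 3 : ℕ) = (i + 2) * (i + 1) * i := by exact_mod_cast h2
  have h3' : (6 : ℝ) * ((j + 2).choose 3 : ℕ) = (j + 2) * (j + 1) * j := by exact_mod_cast h3
  have h4 : (((i + 5).choose 3 : ℕ) : ℝ) * ((i + 2).choose 3 : ℕ) ≤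
      lam * ((j + 2).choose 3 : ℕ) := by exact_mod_cast h
  push_cast
  calc ((i : ℝ) + 5) * (i + 5 - 1) * (i + 5 - 2) * (i + 5 - 3) * (i + 5 - 4) * (i + 5 - 5) =
        ((i + 5) * (i + 4) * (i + 3)) * ((i + 2) * (i + 1) * i) := by ring
    _ = 36 * ((((i + 5).choose 3 : ℕ) : ℝ) * ((i + 2).choose 3 : ℕ)) := by
        rw [← h1', ← h2']; ring
    _ ≤ 36 * (lam * ((j + 2).choose 3 : ℕ)) := by linarith
    _ = 6 * lam * ((j + 2) * (j + 1) * j) := by rw [← h3']; ring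
    _ = _ := by ring

/-- The bound for `q` in terms of `λ`, the number `m` of orbits and `e`. -/
theorem psl_bound {q k lam M : ℕ} (hk : 7 ≤ k) (hkq : k + 6 ≤ q)
    (h1 : ((q : ℝ) - 1) * (q - 3) * (q - 5) ≤ 2 * M * (q + 1) * (k * (k - 2) * (k - 4)))
    (h2 : (k : ℝ) * (k - 1) * (k - 2) * (k - 3) * (k - 4) * (k - 5) ≤
      6 * lam * (((q : ℝ) - 2) * (q - 3) * (q - 4))) : q ≤ 64 * (lam * M ^ 2) := by
  by_contra hcon
  have hcon' : 64 * (lam * M ^ 2) + 1 ≤ q := by omega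
  have hk7 : (7 : ℝ) ≤ k := by exact_mod_cast hk
  have hq13 : (13 : ℝ) ≤ q := by
    have : (13 : ℕ) ≤ q := by omega
    exact_mod_cast this
  set P : ℝ := k * (k - 2) * (k - 4) with hP
  set Q : ℝ := (k : ℝ) * (k - 1) * (k - 2) * (k - 3) * (k - 4) * (k - 5) with hQ
  have hP0 : 0 < P := by
    rw [hP]
    have a1 : (0 : ℝ) < k := by linarith
    have a2 : (0 : ℝ) < k - 2 := by linarith
    have a3 : (0 : ℝ) < k - 4 := by linarith
    positivity
  have hPQ : 16 * P ^ 2 ≤ 35 * Q := by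
    have h3 : 35 * Q - 16 * P ^ 2 =
        P * (35 * ((k - 1) * (k - 3) * (k - 5)) - 16 * (k * (k - 2) * (k - 4))) := by
      rw [hP, hQ]; ring
    have h4 : (0 : ℝ) ≤ 35 * ((k - 1) * (k - 3) * (k - 5)) - 16 * (k * (k - 2) * (k - 4)) := by
      obtain ⟨x, hx, hx0⟩ : ∃ x : ℝ, (k : ℝ) = x + 7 ∧ 0 ≤ x := ⟨k - 7, by ring, by linarith⟩
      rw [hx]
      ring_nf
      positivity
    nlinarith [mul_nonneg hP0.le h4]
  set L : ℝ := ((q : ℝ) - 1) * (q - 3) * (q - 5) with hL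
  have hL0 : 0 < L := by
    rw [hL]
    have a1 : (0 : ℝ) < q - 1 := by linarith
    have a2 : (0 : ℝ) < q - 3 := by linarith
    have a3 : (0 : ℝ) < q - 5 := by linarith
    positivity
  have hM1 : 1 ≤ M := by
    rcases Nat.eq_zero_or_pos M with h | h
    · rw [h, Nat.cast_zero, mul_zero, zero_mul, zero_mul] at h1
      linarith
    · exact h
  have hlam1 : 1 ≤ lam := by
    rcases Nat.eq_zero_or_pos lam with h | h
    · exfalso
      rw [h, Nat.cast_zero, mul_zero, zero_mul] at h2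
      nlinarith
    · exact h
  have hW : 1 ≤ lam * M ^ 2 := Nat.mul_pos hlam1 (pow_pos hM1 2)
  have hq65 : (65 : ℝ) ≤ q := by
    have : (65 : ℕ) ≤ q := by omega
    exact_mod_cast this
  have hWq : (64 : ℝ) * (lam * M ^ 2) ≤ q := by
    have : 64 * (lam * M ^ 2) ≤ q := by omega
    exact_mod_cast this
  -- the two inequalities together
  set T : ℝ := ((q : ℝ) - 2) * (q - 3) * (q - 4) with hT
  have hT0 : 0 < T := by
    rw [hT]
    have a1 : (0 : ℝ) < q - 2 := by linarith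
    have a2 : (0 : ℝ) < q - 3 := by linarith
    have a3 : (0 : ℝ) < q - 4 := by linarith
    positivity
  have h5 : L ^ 2 ≤ (2 * M * (q + 1) * P) ^ 2 := pow_le_pow_left₀ hL0.le h1 2
  have h6 : 16 * L ^ 2 ≤ 840 * (lam * M ^ 2) * ((q + 1) ^ 2 * T) := by
    calc 16 * L ^ 2 ≤ 16 * (2 * M * (q + 1) * P) ^ 2 := by linarith
      _ = (4 * M ^ 2 * (q + 1) ^ 2) * (16 * P ^ 2) := by ring
      _ ≤ (4 * M ^ 2 * (q + 1) ^ 2) * (35 * (6 * lam * T)) := by
          refine mul_le_mul_of_nonneg_left (hPQ.trans ?_) (by positivity)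
          linarith
      _ = _ := by ring
  have h7 : 840 * ((lam : ℝ) * M ^ 2) * ((q + 1) ^ 2 * T) ≤ 105 / 8 * q * ((q + 1) ^ 2 * T) := by
    refine mul_le_mul_of_nonneg_right ?_ (by positivity)
    linarith
  have h8 : 0 < 16 * L ^ 2 - 105 / 8 * q * ((q + 1) ^ 2 * T) := by
    obtain ⟨x, hx, hx0⟩ : ∃ x : ℝ, (q : ℝ) = x + 65 ∧ 0 ≤ x := ⟨q - 65, by ring, by linarith⟩
    rw [hL, hT, hx]
    have h9 : 16 * ((x + 65 - 1) * (x + 65 - 3) * (x + 65 - 5)) ^ 2 -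
        105 / 8 * (x + 65) * ((x + 65 + 1) ^ 2 * ((x + 65 - 2) * (x + 65 - 3) * (x + 65 - 4))) =
        (x + 62) * (16 * ((x + 64) ^ 2 * (x + 62) * (x + 60) ^ 2) -
          105 / 8 * ((x + 65) * (x + 66) ^ 2 * (x + 63) * (x + 61))) := by ring
    rw [h9]
    refine mul_pos (by linarith) ?_
    ring_nf
    positivity
  linarith

end Pool.Agent.N86.S8
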