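import Pool.Agent.N86.S8.CheckSpec
import Pool.Agent.N86.S8.Order
import Pool.Agent.N86.S8.Main

/-!
# No block-transitive `6`-designs on the projective line for odd `λ ≤ 151`
-/

set_option autoImplicit false

namespace Pool.Agent.N86.S8

open Finset Matrix Pool.Agent.N86.S6

lemma p6_choose (n : ℕ) : p6 n = 720 * n.choose 6 := by
  have h := Nat.descFactorial_eq_factorial_mul_choose n 6
  have h1 : n.descFactorial 6 = p6 n := by
    simp only [Nat.descFactorial_succ, Nat.descFactorial_zero, Nat.sub_zero, mul_one, p6]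
    ring
  rw [← h1, h]
  rfl

lemma p6_line {q : ℕ} (_hq : 6 ≤ q) :
    p6 (q + 1) = (q + 1) * q * (q - 1) * ((q - 2) * (q - 3) * (q - 4)) := by
  have e1 : q + 1 - 1 = q := by omega
  have e2 : q + 1 - 2 = q - 1 := by omega
  have e3 : q + 1 - 3 = q - 2 := by omega
  have e4 : q + 1 - 4 = q - 3 := by omega
  have e5 : q + 1 - 5 = q - 4 := by omega
  rw [p6, e1, e2, e3, e4, e5]
  ring

lemma six_choose_three (n : ℕ) : 6 * n.choose 3 = n * (n - 1) * (n - 2) := by
  have h := Nat.descFactorial_eq_factorial_mul_choose n 3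
  have h1 : n.descFactorial 3 = n * (n - 1) * (n - 2) := by
    simp only [Nat.descFactorial_succ, Nat.descFactorial_zero, Nat.sub_zero, mul_one]
    ring
  rw [← h1, h]
  rfl

/-- Fisher's inequality as an upper bound for `k` -/
lemma p6_le {k lam q : ℕ} (hk : 6 ≤ k) (hq : 6 ≤ q)
    (h : k.choose 3 * (k - 3).choose 3 ≤ lam * (q + 1 - 3).choose 3) :
    p6 k ≤ 6 * lam * ((q - 2) * (q - 3) * (q - 4)) := by
  have h1 := six_choose_three k
  have h2 := six_choose_three (k - 3)
  have h3 := six_choose_three (q + 1 - 3)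
  have e1 : k - 3 - 1 = k - 4 := by omega
  have e2 : k - 3 - 2 = k - 5 := by omega
  have e3 : q + 1 - 3 - 1 = q - 3 := by omega
  have e4 : q + 1 - 3 - 2 = q - 4 := by omega
  have e5 : q + 1 - 3 = q - 2 := by omega
  rw [e1, e2] at h2
  rw [e3, e4] at h3
  rw [e5] at h3 h
  have h4 : p6 k = 36 * (k.choose 3 * (k - 3).choose 3) := by
    calc p6 k = (k * (k - 1) * (k - 2)) * ((k - 3) * (k - 4) * (k - 5)) := by rw [p6]; ring
      _ = (6 * k.choose 3) * (6 * (k - 3).choose 3) := by rw [h1, h2]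
      _ = _ := by ring
  rw [h4, ← h3]
  calc 36 * (k.choose 3 * (k - 3).choose 3) ≤ 36 * (lam * (q - 2).choose 3) :=
        Nat.mul_le_mul_left 36 h
    _ = 6 * lam * (6 * (q - 2).choose 3) := by ring

variable {K : Type*} [Field K] [DecidableEq K] [Fintype K]

/-- the divisibility for block-transitive groups -/
lemma six_facts {k lam : ℕ} {𝓑 : Finset (Finset (OnePoint K))} (hD : IsDesign 6 k lam 𝓑)
    (G : Subgroup (Equiv.Perm (OnePoint K))) (hsemi : ∀ g ∈ G, IsSemilinear g)
    (hinv : ∀ g ∈ G, ∀ B ∈ 𝓑, B.image g ∈ 𝓑) {B0 : Finset (OnePoint K)} (hB0 : B0 ∈ 𝓑)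
    (htr : ∀ B ∈ 𝓑, ∃ g ∈ G, B = B0.image g) {p e : ℕ} (hp : p.Prime)
    (hq : Fintype.card K = p ^ e) (hq6 : 6 ≤ Fintype.card K) :
    ∃ c, e * ((Fintype.card K + 1) * Fintype.card K * (Fintype.card K - 1)) = 𝓑.card * c ∧
      e * p6 k =
        lam * ((Fintype.card K - 2) * (Fintype.card K - 3) * (Fintype.card K - 4)) * c := by
  have h1 := dvd_order G hB0 hinv htr
  have h2 : Nat.card G ∣ Nat.card (gammaSub K) :=
    Subgroup.card_dvd_of_le (fun g hg => hsemi g hg)
  have h3 := card_gammaSub hp hq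
  obtain ⟨c, hc⟩ := h1.trans h2
  rw [h3] at hc
  refine ⟨c, hc, ?_⟩
  have h4 := count_through hD ∅ (by simp)
  have h5 : 𝓑.filter (fun B => ∅ ⊆ B) = 𝓑 := by
    rw [Finset.filter_eq_self]
    intro B _
    exact Finset.empty_subset B
  rw [h5, Finset.card_empty, Nat.sub_zero, Nat.sub_zero, Nat.sub_zero, card_line] at h4
  have h6 : 𝓑.card * p6 k = lam * p6 (Fintype.card K + 1) := by
    rw [p6_choose, p6_choose]
    calc 𝓑.card * (720 * k.choose 6) = 720 * (𝓑.card * k.choose 6) := by ring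
      _ = 720 * (lam * (Fintype.card K + 1).choose 6) := by rw [h4]
      _ = _ := by ring
  rw [p6_line hq6] at h6
  have hN : 0 < (Fintype.card K + 1) * Fintype.card K * (Fintype.card K - 1) :=
    Nat.mul_pos (Nat.mul_pos (by omega) (by omega)) (by omega)
  generalize (Fintype.card K + 1) * Fintype.card K * (Fintype.card K - 1) = N at *
  generalize (Fintype.card K - 2) * (Fintype.card K - 3) * (Fintype.card K - 4) = T at *
  refine Nat.eq_of_mul_eq_mul_left hN ?_
  calc N * (e * p6 k) = (e * N) * p6 k := by ring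
    _ = (𝓑.card * c) * p6 k := by rw [hc]
    _ = c * (𝓑.card * p6 k) := by ring
    _ = c * (lam * (N * T)) := by rw [h6]
    _ = N * (lam * T * c) := by ring

/-- the inequality of `psl_main`, in the natural numbers -/
lemma nat_ineq {q k e m : ℕ} (hq : 5 ≤ q) (hk : 4 ≤ k)
    (h : ((q : ℝ) - 1) * (q - 3) * (q - 5) ≤
      2 * ((e * m : ℕ) : ℝ) * (q + 1) * (k * (k - 2) * (k - 4))) :
    (q - 1) * (q - 3) * (q - 5) ≤ 2 * (e * m) * (q + 1) * (k * (k - 2) * (k - 4)) := by
  have h7 : (((q - 1) * (q - 3) * (q - 5) : ℕ) : ℝ) = ((q : ℝ) - 1) * (q - 3) * (q - 5) := by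
    rw [Nat.cast_mul, Nat.cast_mul, Nat.cast_sub (by omega), Nat.cast_sub (by omega),
      Nat.cast_sub (by omega)]
    norm_num
  have h8 : ((k * (k - 2) * (k - 4) : ℕ) : ℝ) = (k : ℝ) * (k - 2) * (k - 4) := by
    rw [Nat.cast_mul, Nat.cast_mul, Nat.cast_sub (by omega), Nat.cast_sub (by omega)]
    norm_num
  have h10 : (((q - 1) * (q - 3) * (q - 5) : ℕ) : ℝ) ≤
      ((2 * (e * m) * (q + 1) * (k * (k - 2) * (k - 4)) : ℕ) : ℝ) := by
    rw [h7, Nat.cast_mul (2 * (e * m) * (q + 1)), h8]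
    push_cast
    push_cast at h
    exact h
  exact_mod_cast h10

/-- the exceptional parameters of the check -/
lemma exceptions {q k lam c b x y : ℕ} (hlam : lam % 2 = 1) (hl : lam ≤ 151)
    (hx : q = 59 → k = 22 → x * 20349 = lam * 5006386)
    (hy : q = 67 → k = 18 → y * 91 = lam * 2016)
    (hF : k.choose 3 * (k - 3).choose 3 ≤ lam * (q - 2).choose 3)
    (hc : p6 k = lam * ((q - 2) * (q - 3) * (q - 4)) * c)
    (hb : (q + 1) * q * (q - 1) = b * c)
    (hm : 2 * (k / 2).choose 3 * b + q * (q - 1) * (q / 2).choose 3 ≤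
      2 * (k / 2).choose 3 * ((q + 1) * q * (q - 1)))
    (hex : (q = 59 ∧ (k = 22 ∨ k = 24)) ∨ (q = 67 ∧ (k = 16 ∨ k = 18))) : False := by
  rcases hex with ⟨rfl, rfl | rfl⟩ | ⟨rfl, rfl | rfl⟩
  · have hx' := hx rfl rfl
    have hF' : 1492260 ≤ lam * 29260 := hF
    have hc' : 53721360 = lam * 175560 * c := hc
    have h1 : lam * c = 306 := by
      have : lam * 175560 * c = 175560 * (lam * c) := by ring
      omega
    clear hF hc hb hm hx hy hc'
    have h2 : 51 ≤ lam := by omega
    interval_cases lam <;> omega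
  · have hF' : (24).choose 3 * (21).choose 3 ≤ lam * (57).choose 3 := hF
    have e1 : (24).choose 3 * (21).choose 3 = 2691920 := rfl
    have e2 : (57).choose 3 = 29260 := rfl
    rw [e1, e2] at hF'
    have hc' : 96909120 = lam * 175560 * c := hc
    have h1 : lam * c = 552 := by
      have : lam * 175560 * c = 175560 * (lam * c) := by ring
      omega
    clear hF hc hb hm hx hy hc'
    have h2 : 92 ≤ lam := by omega
    interval_cases lam <;> omega
  · have hF' : 160160 ≤ lam * 43680 := hF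
    have hc' : 5765760 = lam * 262080 * c := hc
    have hb' : 300696 = b * c := hb
    have hm' : 112 * b + 24126432 ≤ 33677952 := hm
    have h1 : lam * c = 22 := by
      have : lam * 262080 * c = 262080 * (lam * c) := by ring
      omega
    clear hF hc hb hm hx hy hc'
    have h2 : 4 ≤ lam := by omega
    have h3 : lam ≤ 22 := by
      by_contra hcon
      have h4 : c ≠ 0 := by rintro rfl; omega
      have h5 : lam * 1 ≤ lam * c := Nat.mul_le_mul_left lam (by omega)
      omega
    have h6 : c = 2 := by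
      interval_cases lam <;> omega
    subst h6
    omega
  · have hy' := hy rfl rfl
    have hc' : 13366080 = lam * 262080 * c := hc
    have hF' : 371280 ≤ lam * 43680 := hF
    have h1 : lam * c = 51 := by
      have : lam * 262080 * c = 262080 * (lam * c) := by ring
      omega
    clear hF hc hb hm hx hy hc'
    have h3 : lam ≤ 51 := by
      by_contra hcon
      have h4 : c ≠ 0 := by rintro rfl; omega
      have h5 : lam * 1 ≤ lam * c := Nat.mul_le_mul_left lam (by omega)
      omega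
    interval_cases lam <;> omega

lemma ch1 : (22 - 1).choose (6 - 1) = 20349 := by norm_num [Nat.choose]

lemma ch2 : (60 - 1).choose (6 - 1) = 5006386 := by norm_num [Nat.choose]

lemma ch3 : (18 - 4).choose (6 - 4) = 91 := by norm_num [Nat.choose]

lemma ch4 : (68 - 4).choose (6 - 4) = 2016 := by norm_num [Nat.choose]

/-- no block-transitive `6`-design on the projective line has an odd `λ ≤ 151` -/
theorem psl_none {k lam : ℕ} {𝓑 : Finset (Finset (OnePoint K))} (hD : IsDesign 6 k lam 𝓑)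
    (hlam : Odd lam) (hl : lam ≤ 151) (G : Subgroup (Equiv.Perm (OnePoint K)))
    (hSL : ∀ A : SpecialLinearGroup (Fin 2) K, slPerm A ∈ G) (hsemi : ∀ g ∈ G, IsSemilinear g)
    (hinv : ∀ g ∈ G, ∀ B ∈ 𝓑, B.image g ∈ 𝓑) {B0 : Finset (OnePoint K)} (hB0 : B0 ∈ 𝓑)
    (htr : ∀ B ∈ 𝓑, ∃ g ∈ G, B = B0.image g) (hk : 6 < k) {C : Finset (OnePoint K)}
    (hC : C.card = k) (hC' : C ∉ 𝓑) (hkv : k < Fintype.card K + 1) : False := by
  obtain ⟨p, -, n, hp, hq⟩ := FiniteField.card' K
  obtain ⟨e, he0⟩ : ∃ e : ℕ, e = n := ⟨n, rfl⟩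
  rw [← he0] at hq
  have hR : ∀ B ∈ 𝓑, ∃ A ∈ ({B0} : Finset (Finset (OnePoint K))), ∃ g ∈ G, B = A.image g := by
    intro B hB
    obtain ⟨g, hg, h⟩ := htr B hB
    exact ⟨B0, Finset.mem_singleton_self _, g, hg, h⟩
  obtain ⟨hgap, hF1, hF, hqb⟩ := psl_main hD hlam G hSL hsemi hinv hR hp hq hk hC hC' hkv
  have hm := main_ineq hD hlam G hSL hsemi hinv hR hp hq
  rw [Finset.card_singleton] at hF1 hqb hm
  have hnat := nat_ineq (by omega) (by omega) hF1
  rw [mul_one] at hnat hqb
  rw [one_mul] at hm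
  obtain ⟨c, hc1, hc2⟩ := six_facts hD G hsemi hinv hB0 htr hp hq (by omega)
  have hp6 := p6_le (by omega) (by omega) hF
  -- the check
  have h1 : p ^ e ≤ 9664 * (e * e) := by
    rw [← hq]
    calc Fintype.card K ≤ 64 * (lam * e ^ 2) := hqb
      _ ≤ 64 * (151 * e ^ 2) := Nat.mul_le_mul_left _ (Nat.mul_le_mul_right _ hl)
      _ = 9664 * (e * e) := by ring
  have h2 := chk_pe hp h1 (by rw [← hq]; omega)
  rw [← hq] at h2
  have h3 := chkq_spec h2 (k := k) (by omega) (by omega) hnat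
    (by
      rw [hc2]
      exact Nat.mod_eq_zero_of_dvd ⟨lam * c, by ring⟩)
    (hp6.trans (Nat.mul_le_mul_right _ (by omega)))
  have h4 := exc_spec h3
  -- the exponent
  have he : e = 1 := by
    have h5 : (p ^ e).Prime := by
      rw [← hq]
      rcases h4 with h | h | h <;> rw [h.1] <;> norm_num
    exact Nat.Prime.eq_one_of_pow h5
  rw [he, one_mul] at hc1 hc2 hm
  have hSL' : ∀ A : SpecialLinearGroup (Fin 2) K, ∀ B ∈ 𝓑, B.image (slPerm A) ∈ 𝓑 :=
    fun A B hB => hinv _ (hSL A) B hB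
  obtain ⟨I1, -, hI1⟩ := Finset.exists_subset_card_eq (s := (univ : Finset (OnePoint K))) (n := 1)
    (by rw [Finset.card_univ, card_line]; omega)
  obtain ⟨I4, -, hI4⟩ := Finset.exists_subset_card_eq (s := (univ : Finset (OnePoint K))) (n := 4)
    (by rw [Finset.card_univ, card_line]; omega)
  have hx := count_through hD I1 (by omega)
  have hy := count_through hD I4 (by omega)
  rw [hI1, card_line] at hx
  rw [hI4, card_line] at hy
  have hlam2 := Nat.odd_iff.1 hlam
  have hqk : (Fintype.card K = 59 ∧ (k = 22 ∨ k = 24)) ∨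
      (Fintype.card K = 67 ∧ (k = 16 ∨ k = 18)) := by
    rcases h4 with ⟨h5, h6⟩ | ⟨h5, h6⟩ | ⟨h5, h6⟩
    · have hev := even_of_three hD hlam hSL' (by omega) (by omega)
      rw [Nat.even_iff] at hev
      omega
    · have hev := even_of_three hD hlam hSL' (by omega) (by omega)
      rw [Nat.even_iff] at hev
      omega
    · exfalso
      obtain ⟨i, hi⟩ := exists_i (K := K) (by omega)
      have hk4 := four_of_one hD hlam hSL' i hi
        (two_ne_zero_of_odd (by rw [Nat.odd_iff]; omega))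
      omega
  refine exceptions (x := (𝓑.filter (fun B => I1 ⊆ B)).card)
    (y := (𝓑.filter (fun B => I4 ⊆ B)).card) hlam2 hl ?_ ?_ ?_ hc2 hc1 hm hqk
  · intro h5 h6
    rw [h5, h6] at hx
    rw [← ch1, ← ch2]
    exact hx
  · intro h5 h6
    rw [h5, h6] at hy
    rw [← ch3, ← ch4]
    exact hy
  · have e5 : Fintype.card K + 1 - 3 = Fintype.card K - 2 := by omega
    rw [e5] at hF
    exact hF

end Pool.Agent.N86.S8
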